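import Pool.Agent.Helper31_Win.Form

section

/-!
# The theories for the dichotomy
-/

namespace Helper31Con

open Function Filter Fm

variable {con : Fm} {g : ℕ → ℕ} {s₀ : ℕ}

section Th

variable (I : Iface (Rel con g s₀)) (k r : ℕ) (B : List Fm)

/-- The package. -/
def wpk : ℕ := nd (lc B) (lc [WP I k r])

/-- The axioms `A^v`. -/
def wA (v : ℕ) : List Fm := th 18 (wpk I k r B) v (WP I k r) :: B

/-- The theory `T^v = A^v + Con`. -/
def wTm (v : ℕ) : List Fm := conS con (wA I k r B v) :: wA I k r B v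

/-- The axiom `θ`. -/
def wS : Fm := all 2 (imp (eq (x 2) (.num (wpk I k r B))) (WTh I k r))

variable {I k r B}

lemma wcdA_iff {v z : ℕ} : CdA 0 v (wpk I k r B) z ↔ z = lc (wA I k r B v) := by
  constructor
  · rintro ⟨lb, P, ξ, h1, ⟨l, φ, h2, h3, h4⟩, h5⟩
    obtain ⟨h6, h7⟩ := nd_inj.mp h1
    rw [h2] at h7
    obtain rfl := lc_inj h7
    obtain rfl : WP I k r = φ := Option.some.inj h3
    rw [h5, h4, ← h6]; rfl
  · rintro rfl
    exact ⟨lc B, lc [WP I k r], fc (WP I k r), rfl, ⟨[WP I k r], _, rfl, rfl, rfl⟩, rfl⟩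

lemma wcdT_iff {v z : ℕ} : CdT con 0 v (wpk I k r B) z ↔ z = lc (wTm I k r B v) := by
  constructor
  · rintro ⟨z', h1, h2⟩
    rw [wcdA_iff] at h1
    subst h1
    exact h2
  · rintro rfl
    exact ⟨lc (wA I k r B v), wcdA_iff.mpr rfl, rfl⟩

lemma le_nw (k v i : ℕ) : v ≤ nw k v i := by
  have := add_le_tw (v + k * i) v
  unfold nw; omega

lemma nw_mono {k v i j : ℕ} (h : i ≤ j) : nw k v i ≤ nw k v j :=
  tw_le_tw (by have := Nat.mul_le_mul_left k h; omega) v

lemma nw_succ (k v i : ℕ) : nw k v (i + 1) = tw k (nw k v i) := by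
  unfold nw
  rw [← tw_add]
  congr 1; ring

lemma lt_nw {k : ℕ} (hk : 1 ≤ k) (v i : ℕ) : i ≤ nw k v i := by
  have := add_le_tw (v + k * i) v
  have h2 : i ≤ k * i := Nat.le_mul_of_pos_left _ hk
  unfold nw; omega

variable (hcon : IsCon con)
include hcon

lemma wth_sentence (v : ℕ) : Fm.Sentence (th 18 (wpk I k r B) v (WP I k r)) := by
  intro j h
  obtain ⟨h1, h2 | ⟨h2, h3 | h3⟩⟩ := h
  · rcases h2 with h2 | h2
    · exact h1 h2
    · exact Tm.not_has_num _ _ h2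
  · rcases h3 with h3 | h3
    · exact h2 h3
    · exact Tm.not_has_num _ _ h3
  · rcases free_WP hcon h3 with h | h
    · exact h1 h.symm
    · exact h2 h.symm

lemma wth_sat (v : ℕ) (e : ℕ → ℕ) : (th 18 (wpk I k r B) v (WP I k r)).Sat e ↔
    wP con k r (wpk I k r B) v := by
  simp only [th, Fm.Sat, Tm.val, update_self, Tm.val_num]
  constructor
  · intro h
    have := h _ rfl _ rfl
    rw [sat_WP hcon, update_self, update_of_ne (show (2 : ℕ) ≠ 18 by omega), update_self] at this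
    exact this
  · rintro h c rfl v rfl
    rw [sat_WP hcon, update_self, update_of_ne (show (2 : ℕ) ≠ 18 by omega), update_self]
    exact h

lemma wS_sentence : Fm.Sentence (wS I k r B) := by
  intro j h
  obtain ⟨h1, h2 | h2⟩ := h
  · rcases h2 with h2 | h2
    · exact h1 h2
    · exact Tm.not_has_num _ _ h2
  · exact h1 (free_WTh hcon h2).symm

lemma wS_sat (e : ℕ → ℕ) : (wS I k r B).Sat e ↔ wTh con k r (wpk I k r B) := by
  simp only [wS, Fm.Sat, Tm.val, update_self, Tm.val_num]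
  constructor
  · intro h
    have := h _ rfl
    rwa [sat_WTh hcon, update_self] at this
  · rintro h c rfl
    rwa [sat_WTh hcon, update_self]

variable (hB : ∀ β ∈ B, TrueS β)
include hB

lemma wA_sentence (v : ℕ) : ∀ φ ∈ wA I k r B v, Fm.Sentence φ := by
  intro φ hφ
  rcases List.mem_cons.mp hφ with rfl | hφ
  · exact wth_sentence hcon v
  · exact (hB φ hφ).1

lemma wTm_sentence (v : ℕ) : ∀ φ ∈ wTm I k r B v, Fm.Sentence φ := by
  intro φ hφ
  rcases List.mem_cons.mp hφ with rfl | hφ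
  · exact hcon.conS_sentence _
  · exact wA_sentence hcon hB v φ hφ

lemma wA_true {v : ℕ} (h : wP con k r (wpk I k r B) v) : ∀ φ ∈ wA I k r B v, TrueS φ := by
  intro φ hφ
  rcases List.mem_cons.mp hφ with rfl | hφ
  · exact ⟨wth_sentence hcon v, fun e => (wth_sat hcon v e).mpr h⟩
  · exact hB φ hφ

lemma wA_consistent {v : ℕ} (h : wP con k r (wpk I k r B) v) (n : ℕ) :
    ¬ Prov (wA I k r B v) n .bot := fun h' =>
  h'.sound (fun φ hφ => (wA_true hcon hB h φ hφ).2) (fun _ => 0)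

lemma wC_iff {v i : ℕ} : wC con k (wpk I k r B) v i ↔
    ¬ Prov (wTm I k r B v) (nw k v i) .bot := by
  have key : cP con (lc (wTm I k r B v)) (nw k v i) ↔
      ¬ Prov (wTm I k r B v) (nw k v i) .bot :=
    hcon.sat (wTm I k r B v) _ (wTm_sentence hcon hB v) rfl
  rw [← key]
  constructor
  · intro h; exact h _ (wcdT_iff.mpr rfl)
  · intro h z hz
    rw [wcdT_iff] at hz
    rw [hz]; exact h

/-- The axiom `θ` is true. -/
lemma wTh_true : wTh con k r (wpk I k r B) := by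
  intro v h n z hz
  rw [wcdA_iff] at hz
  rw [hz]
  exact (hcon.sat (wA I k r B v) _ (wA_sentence hcon hB v) rfl).mpr
    (wA_consistent hcon hB h _)

lemma wS_true : TrueS (wS I k r B) :=
  ⟨wS_sentence hcon, fun e => (wS_sat hcon e).mpr (wTh_true hcon hB)⟩

/-- If `T^v` is consistent then `Φ(v)` is true. -/
lemma wP_of {v : ℕ} (h : ∀ n, ¬ Prov (wTm I k r B v) n .bot) :
    wP con k r (wpk I k r B) v := fun _ _ _ _ => (wC_iff hcon hB).mpr (h _)

end Th

end Helper31Con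

end

section

/-!
# Derivations for the dichotomy
-/

namespace Helper31Con

open Function Filter Fm

variable {con : Fm} {g : ℕ → ℕ} {s₀ : ℕ} {I : Iface (Rel con g s₀)} {k r : ℕ}

/-! ### Instances -/

lemma WC_cl (hcon : IsCon con) {p q p' q' : ℕ} {e e' : ℕ → ℕ} (hp : p = p') (hq : q = q')
    (hp' : Al p) (hq' : Al q) (h2 : e 2 = e' 2) (h3 : e p = e' p') (h4 : e q = e' q') :
    (WC I k p q).cl e = (WC I k p' q').cl e' := by
  subst hp hq
  refine Fm.cl_congr fun j hj => ?_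
  rcases free_WC hcon hp' hq' hj with rfl | rfl | rfl
  · exact h2
  · exact h3
  · exact h4

lemma WE_cl (hcon : IsCon con) {e e' : ℕ → ℕ} {a a' : ℕ} (ha : a ≠ 7) (ha' : a' ≠ 7)
    (h2 : e 2 = e' 2) (h6 : e 6 = e' 6) (h : e a = e' a') :
    (WE I k a).cl e = (WE I k a').cl e' := by
  set σ : ℕ → Tm := update (fun k => Tm.num (e k)) 7 (x 7) with hσ
  set σ' : ℕ → Tm := update (fun k => Tm.num (e' k)) 7 (x 7) with hσ'
  have a1 : σ 6 = σ' 6 := by
    rw [hσ, hσ', update_of_ne (by omega), update_of_ne (by omega), h6]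
  have a2 : σ a = σ' a' := by
    rw [hσ, hσ', update_of_ne ha, update_of_ne ha', h]
  have a3 : σ 7 = σ' 7 := by rw [hσ, hσ', update_self, update_self]
  have a4 : (WC I k 7 6).sb σ = (WC I k 7 6).sb σ' := by
    refine Fm.sb_congr fun j hj => ?_
    rcases free_WC hcon (Or.inl (by omega)) (Or.inl (by omega)) hj with rfl | rfl | rfl
    · rw [hσ, hσ', update_of_ne (by omega), update_of_ne (by omega), h2]
    · exact a3
    · exact a1
  show all 7 (imp (le (.succ (σ 7)) (σ a)) ((WC I k 7 6).sb σ)) =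
    all 7 (imp (le (.succ (σ' 7)) (σ' a')) ((WC I k 7 6).sb σ'))
  rw [a2, a3, a4]

/-- The open version of `θ`. -/
def wSO (I : Iface (Rel con g s₀)) (k r : ℕ) : Fm := all 2 (imp (eq (x 2) (x 3)) (WTh I k r))

lemma wSO_sat (hcon : IsCon con) (e : ℕ → ℕ) : (wSO I k r).Sat e ↔ wTh con k r (e 3) := by
  simp only [wSO, Fm.Sat, Tm.val, update_self]
  constructor
  · intro h
    have := h (e 3) (by rw [update_of_ne (by omega)])
    rwa [sat_WTh hcon, update_self] at this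
  · intro h c hc
    rw [update_of_ne (by omega)] at hc
    rwa [sat_WTh hcon, update_self, hc]

lemma wSO_cl (hcon : IsCon con) {B : List Fm} (e : ℕ → ℕ) (he : e 3 = wpk I k r B) :
    (wSO I k r).cl e = wS I k r B := by
  set σ : ℕ → Tm := update (fun k => Tm.num (e k)) 2 (x 2) with hσ
  have a1 : σ 2 = x 2 := by rw [hσ, update_self]
  have a2 : σ 3 = .num (wpk I k r B) := by rw [hσ, update_of_ne (by omega), he]
  have a5 : (WTh I k r).sb σ = WTh I k r := by
    conv_rhs => rw [← Fm.sb_var (WTh I k r)]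
    refine Fm.sb_congr fun j hj => ?_
    rw [free_WTh hcon hj, hσ, update_self]
  show all 2 (imp (eq (σ 2) (σ 3)) ((WTh I k r).sb σ)) = _
  rw [a1, a2, a5]; rfl

lemma cdT_unique {v c z z' : ℕ} (h : CdT con 0 v c z) (h' : CdT con 0 v c z') : z = z' := by
  obtain ⟨w, ⟨lb, P, ξ, i1, ⟨l, φ, i2, i3, i4⟩, i5⟩, h1⟩ := h
  obtain ⟨w', ⟨lb', P', ξ', j1, ⟨l', φ', j2, j3, j4⟩, j5⟩, h1'⟩ := h'
  obtain ⟨k1, k2⟩ := nd_inj.mp (i1.symm.trans j1)
  have k3 : l = l' := lc_inj (i2.symm.trans (k2.trans j2))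
  rw [k3, j3] at i3
  have hw : w = w' := by rw [i5, j5, i4, j4, k1, Option.some.inj i3]
  rw [h1, h1', hw]

variable (I k r) (hcon : IsCon con)
include hcon

/-! ### The rules -/

lemma R0 : ∃ c : ℕ, ∀ᶠ B in rich, ∀ e N M n, (∀ k, e k ≤ N) → c * (N + 1) ≤ M →
    (∀ α ∈ [con, I.A 17 (x 13) (x 6) (x 1) .zero, eq (x 13) (.add (x 6) (.mul (.num k) (x 5))),
      I.A 25 .zero (x 6) (x 2) (x 0)], Pr B n M (α.cl e)) →
    Pr B (c * (n + 1)) M ((WC I k 5 6).cl e) := by
  refine hornL _ _ fun e h => ?_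
  rw [List.forall_mem_cons, List.forall_mem_cons, List.forall_mem_cons,
    List.forall_mem_singleton, I.satA (by simp [Al]), I.satA (by simp [Al]), hcon.cP_iff] at h
  obtain ⟨h1, h2, h3, h4⟩ := h
  have h2' : e 1 = tw (e 13) (e 6) := h2
  have h3' : e 13 = e 6 + k * e 5 := by
    have : (x 13).val e = (Tm.add (x 6) (.mul (.num k) (x 5))).val e := h3
    simpa [Tm.val] using this
  have h4' : CdT con 0 (e 6) (e 2) (e 0) := h4
  rw [sat_WC hcon (Or.inl (by omega)) (Or.inl (by omega)) (by omega) (by omega)]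
  intro z hz
  rw [cdT_unique hz h4']
  show cP con (e 0) (tw (e 6 + k * e 5) (e 6))
  rw [← h3', ← h2']
  exact h1

lemma R1 : ∃ c : ℕ, ∀ᶠ B in rich, ∀ e N M n, (∀ k, e k ≤ N) → c * (N + 1) ≤ M →
    (∀ α ∈ [thO 18 3 6 (WP I k r), eq (x 2) (x 3), I.A 17 (x 13) (x 6) (x 9) .zero,
      eq (x 13) (.add (x 6) (.mul (.num k) (x 5))), I.A 16 (x 10) (x 9) .zero .zero,
      eq (x 6) (ndT (x 0) (ndT (x 11) (x 12))), eq (x 1) (.mul (x 11) (pwT r (x 10))), con],
      Pr B n M (α.cl e)) →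
    Pr B (c * (n + 1)) M ((WC I k 5 6).cl e) := by
  refine hornL _ _ fun e h => ?_
  rw [List.forall_mem_cons, List.forall_mem_cons, List.forall_mem_cons, List.forall_mem_cons,
    List.forall_mem_cons, List.forall_mem_cons, List.forall_mem_cons,
    List.forall_mem_singleton, I.satA (by simp [Al]), I.satA (by simp [Al]), hcon.cP_iff,
    thO_sat (by omega) (by omega) (by omega), sat_WP hcon, update_self,
    update_of_ne (show (2 : ℕ) ≠ 18 by omega), update_self] at h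
  obtain ⟨h1, h2, h3, h4, h5, h6, h7, h8⟩ := h
  have h2' : e 2 = e 3 := h2
  have h3' : e 9 = tw (e 13) (e 6) := h3
  have h4' : e 13 = e 6 + k * e 5 := by
    have : (x 13).val e = (Tm.add (x 6) (.mul (.num k) (x 5))).val e := h4
    simpa [Tm.val] using this
  have h5' : e 9 = 2 ^ e 10 := h5
  have h6' : e 6 = nd (e 0) (nd (e 11) (e 12)) := by
    have : (x 6).val e = (ndT (x 0) (ndT (x 11) (x 12))).val e := h6
    simpa [Tm.val] using this
  have h7' : e 1 = e 11 * e 10 ^ r := by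
    have : (x 1).val e = (Tm.mul (x 11) (pwT r (x 10))).val e := h7
    simpa [Tm.val, val_pwT] using this
  rw [sat_WC hcon (Or.inl (by omega)) (Or.inl (by omega)) (by omega) (by omega), h2']
  refine h1 (e 5) (e 10) ?_ ?_
  · show tw (e 6 + k * e 5) (e 6) = _
    rw [← h4', ← h3', h5']
  · intro z C u hv
    rw [h6', nd_inj, nd_inj] at hv
    rw [← hv.1, ← hv.2.1, ← h7']
    exact h8

lemma R2 : ∃ c : ℕ, ∀ᶠ B in rich, ∀ e N M n, (∀ k, e k ≤ N) → c * (N + 1) ≤ M →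
    (∀ α ∈ [WC I k 5 6, I.A 17 (x 13) (x 6) (x 1) .zero,
      eq (x 13) (.add (x 6) (.mul (.num k) (x 5))),
      I.A 25 .zero (x 6) (x 2) (x 0)], Pr B n M (α.cl e)) →
    Pr B (c * (n + 1)) M (con.cl e) := by
  refine hornL _ _ fun e h => ?_
  rw [List.forall_mem_cons, List.forall_mem_cons, List.forall_mem_cons,
    List.forall_mem_singleton, I.satA (by simp [Al]), I.satA (by simp [Al]),
    sat_WC hcon (Or.inl (by omega)) (Or.inl (by omega)) (by omega) (by omega)] at h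
  obtain ⟨h1, h2, h3, h4⟩ := h
  have h2' : e 1 = tw (e 13) (e 6) := h2
  have h3' : e 13 = e 6 + k * e 5 := by
    have : (x 13).val e = (Tm.add (x 6) (.mul (.num k) (x 5))).val e := h3
    simpa [Tm.val] using this
  have h4' : CdT con 0 (e 6) (e 2) (e 0) := h4
  have := h1 _ h4'
  rw [hcon.cP_iff, h2', h3']
  exact this

lemma R5 : ∃ c : ℕ, ∀ᶠ B in rich, ∀ e N M n, (∀ k, e k ≤ N) → c * (N + 1) ≤ M →
    Pr B n M ((eq (x 5) .zero).cl e) → Pr B (c + n) M ((WE I k 5).cl e) := by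
  refine horn1 fun e h1 => ?_
  rw [sat_WE hcon (by omega)]
  have h1' : e 5 = 0 := h1
  intro j hj
  omega

lemma R6 : ∃ c : ℕ, ∀ᶠ B in rich, ∀ e N M n₁ n₂ n₃, (∀ k, e k ≤ N) → c * (N + 1) ≤ M →
    Pr B n₁ M ((WE I k 5).cl e) → Pr B n₂ M ((WC I k 5 6).cl e) →
    Pr B n₃ M ((eq (x 8) (.succ (x 5))).cl e) →
    Pr B (c + n₁ + n₂ + n₃) M ((WE I k 8).cl e) := by
  refine horn3 fun e h1 h2 h3 => ?_
  rw [sat_WE hcon (by omega)] at h1 ⊢
  rw [sat_WC hcon (Or.inl (by omega)) (Or.inl (by omega)) (by omega) (by omega)] at h2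
  have h3' : e 8 = e 5 + 1 := h3
  intro j hj
  by_cases h6 : j < e 5
  · exact h1 j h6
  · have : j = e 5 := by omega
    rw [this]; exact h2

lemma R7 : ∃ c : ℕ, ∀ᶠ B in rich, ∀ e N M n, (∀ k, e k ≤ N) → c * (N + 1) ≤ M →
    (∀ α ∈ [imp (thO 18 3 6 (WP I k r)) (imp (all 1 con) .bot), wSO I k r,
      I.A 24 .zero (x 6) (x 3) (x 0)], Pr B n M (α.cl e)) →
    Pr B (c * (n + 1)) M ((neg (thO 18 3 6 (WP I k r))).cl e) := by
  refine hornL _ _ fun e h => ?_
  rw [List.forall_mem_cons, List.forall_mem_cons,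
    List.forall_mem_singleton, I.satA (by simp [Al]), wSO_sat hcon] at h
  obtain ⟨h1, h2, h3⟩ := h
  rw [sat_neg]
  intro h4
  refine h1 h4 fun n => ?_
  rw [thO_sat (by omega) (by omega) (by omega), sat_WP hcon, update_self,
    update_of_ne (show (2 : ℕ) ≠ 18 by omega), update_self] at h4
  have h3' : CdA 0 (e 6) (e 3) (e 0) := h3
  rw [hcon.cP_iff, update_self, update_of_ne (by omega)]
  exact h2 _ h4 n (e 0) h3'

lemma R8 : ∃ c : ℕ, ∀ᶠ B in rich, ∀ e N M n, (∀ k, e k ≤ N) → c * (N + 1) ≤ M →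
    (∀ α ∈ [neg (thO 18 3 6 (WP I k r)), WE I k 5, eq (x 2) (x 3),
      I.A 17 (x 13) (x 6) (x 9) .zero,
      eq (x 13) (.add (x 6) (.mul (.num k) (x 5))), I.A 16 (x 10) (x 9) .zero .zero,
      eq (x 6) (ndT (x 0) (ndT (x 11) (x 12))), eq (x 1) (.mul (x 11) (pwT r (x 10))),
      I.A 11 (x 0) .zero .zero .zero],
      Pr B n M (α.cl e)) →
    Pr B (c * (n + 1)) M (con.cl e) := by
  refine hornL _ _ fun e h => ?_
  rw [List.forall_mem_cons, List.forall_mem_cons, List.forall_mem_cons, List.forall_mem_cons,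
    List.forall_mem_cons, List.forall_mem_cons, List.forall_mem_cons, List.forall_mem_cons,
    List.forall_mem_singleton, I.satA (by simp [Al]), I.satA (by simp [Al]),
    I.satA (by simp [Al]), sat_neg,
    thO_sat (by omega) (by omega) (by omega), sat_WP hcon, update_self,
    update_of_ne (show (2 : ℕ) ≠ 18 by omega), update_self, sat_WE hcon (by omega)] at h
  obtain ⟨h1, h2, h3, h4, h5, h6, h7, h8, h9⟩ := h
  have h3' : e 2 = e 3 := h3
  have h4' : e 9 = tw (e 13) (e 6) := h4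
  have h5' : e 13 = e 6 + k * e 5 := by
    have : (x 13).val e = (Tm.add (x 6) (.mul (.num k) (x 5))).val e := h5
    simpa [Tm.val] using this
  have h6' : e 9 = 2 ^ e 10 := h6
  have h7' : e 6 = nd (e 0) (nd (e 11) (e 12)) := by
    have : (x 6).val e = (ndT (x 0) (ndT (x 11) (x 12))).val e := h7
    simpa [Tm.val] using this
  have h8' : e 1 = e 11 * e 10 ^ r := by
    have : (x 1).val e = (Tm.mul (x 11) (pwT r (x 10))).val e := h8
    simpa [Tm.val, val_pwT] using this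
  obtain ⟨T, hT, hS⟩ : LSR (e 0) := h9
  unfold wP at h1
  push Not at h1
  obtain ⟨i, m, i1, i2, i3⟩ := h1
  have hi : e 5 ≤ i := by
    by_contra hlt
    have := h2 i (by omega)
    rw [h3'] at this
    exact i3 this
  have hm : e 10 ≤ m := by
    have h10 : nw k (e 6) (e 5) ≤ nw k (e 6) i := nw_mono hi
    rw [i1] at h10
    have h11 : nw k (e 6) (e 5) = 2 ^ e 10 := by
      show tw (e 6 + k * e 5) (e 6) = _
      rw [← h5', ← h4', h6']
    rw [h11] at h10
    exact (Nat.pow_le_pow_iff_right (by omega)).mp h10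
  have h12 := i2 _ _ _ h7'
  have h13 : cP con (e 0) (e 11 * m ^ r) ↔ ¬ Prov T (e 11 * m ^ r) .bot :=
    hcon.sat T _ hS hT
  rw [h13] at h12
  rw [hcon.sat T e hS hT]
  refine fun h => h12 (h.mono ?_)
  rw [h8']
  exact Nat.mul_le_mul_left _ (Nat.pow_le_pow_left hm r)

end Helper31Con

end

section

/-!
# Cost of the derivations for the dichotomy
-/

namespace Helper31Con

open Function Filter Fm

variable {con : Fm} {g : ℕ → ℕ} {s₀ : ℕ} {I : Iface (Rel con g s₀)} {k r : ℕ}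

lemma add_le_nw (k v a : ℕ) : v + k * a ≤ nw k v a := by
  have := add_le_tw (v + k * a) v
  unfold nw; omega

lemma parts_le {z C u v : ℕ} (h : v = nd z (nd C u)) : z ≤ v ∧ C ≤ v ∧ u ≤ v := by
  have h1 := lt_nd_l z (nd C u)
  have h2 := lt_nd_r z (nd C u)
  have h3 := lt_nd_l C u
  have h4 := lt_nd_r C u
  omega

lemma le_mid (a b c : ℕ) : b ≤ a + b + c := by omega

lemma cost_aux (c₁ c₂ F s : ℕ) : c₂ * (c₁ * (s + F + 1) + (s + F) + 1) ≤
    ((c₂ + 1) * ((c₁ + 1) * (F + 1) + F + 1)) * (s + 1) := by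
  have i1 : s + F + 1 ≤ (F + 1) * (s + 1) := by nlinarith
  have i2 : c₁ * (s + F + 1) + (s + F) + 1 = (c₁ + 1) * (s + F + 1) := by ring
  rw [i2]
  calc c₂ * ((c₁ + 1) * (s + F + 1)) ≤ (c₂ + 1) * ((c₁ + 1) * ((F + 1) * (s + 1))) :=
        Nat.mul_le_mul (by omega) (Nat.mul_le_mul_left _ i1)
    _ = ((c₂ + 1) * ((c₁ + 1) * (F + 1))) * (s + 1) := by ring
    _ ≤ _ := Nat.mul_le_mul_right _ (Nat.mul_le_mul_left _ (by omega))

lemma cost_aux' (c₁ F s : ℕ) : c₁ * (s + F + 1) ≤ ((c₁ + 1) * (F + 1)) * (s + 1) := by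
  have i1 : s + F + 1 ≤ (F + 1) * (s + 1) := by nlinarith
  calc c₁ * (s + F + 1) ≤ (c₁ + 1) * ((F + 1) * (s + 1)) := Nat.mul_le_mul (by omega) i1
    _ = ((c₁ + 1) * (F + 1)) * (s + 1) := by ring

variable (I k r) (hcon : IsCon con)
include hcon

/-- The derivation in `A^v`. -/
lemma case1_step (hk : 1 ≤ k) : ∃ f, PB f ∧ ∀ᶠ A in rich, ∀ c z C u v a n m t N M s,
    v = nd z (nd C u) → n = nw k v a → n = 2 ^ m → c ≤ N → n ≤ N → C * m ^ r ≤ N → t ≤ N →
    f N ≤ M → th 18 c v (WP I k r) ∈ A →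
    Pr A s M (con.cl (as [z, C * m ^ r])) →
    Pr A s M (I.A 25 .zero (.num v) (.num c) (.num t)) →
    Pr A (f N * (s + 1)) M (con.cl (as [t, n])) := by
  obtain ⟨c1, h1⟩ := R1 I k r hcon
  obtain ⟨c2, h2⟩ := R2 I k hcon
  obtain ⟨f1, hf1, g1⟩ := eq_fact (x 2) (x 3)
  obtain ⟨f2, hf2, g2⟩ := tw_fact I
  obtain ⟨f3, hf3, g3⟩ := eq_fact (x 13) (.add (x 6) (.mul (.num k) (x 5)))
  obtain ⟨f4, hf4, g4⟩ := ex2_fact I
  obtain ⟨f5, hf5, g5⟩ := eq_fact (x 6) (ndT (x 0) (ndT (x 11) (x 12)))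
  obtain ⟨f6, hf6, g6⟩ := eq_fact (x 1) (.mul (x 11) (pwT r (x 10)))
  set L := (thO 18 3 6 (WP I k r)).len with hL
  set F : ℕ → ℕ := fun N => f1 N + f2 N + f3 N + f4 N + f5 N + f6 N + 1 with hF
  have hFP : PB F := ((((((hf1.add hf2).add hf3).add hf4).add hf5).add hf6).add (PB.const 1))
  refine ⟨fun N => (c1 + c2 + L + 1) * (N + 1) + (c2 + 1) * ((c1 + 1) * (F N + 1) + F N + 1) + F N,
    ?_, ?_⟩
  · exact (((PB.const _).mul (PB.id.add (PB.const 1))).add ((PB.const _).mul ((((PB.const _).mul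
      (hFP.add (PB.const 1))).add hFP).add (PB.const 1)))).add hFP
  filter_upwards [h1, h2, g1, g2, g3, g4, g5, g6] with A h1 h2 g1 g2 g3 g4 g5 g6
    c z C u v a n m t N M s hv hn hm hc hnN hCm ht hM hth q8 q9
  obtain ⟨hz, hC, hu⟩ := parts_le hv
  have hva := add_le_nw k v a
  have haN := lt_nw hk v a
  have hmn : m < 2 ^ m := Nat.lt_two_pow_self
  rw [← hn] at hva haN
  have hFN : F N = f1 N + f2 N + f3 N + f4 N + f5 N + f6 N + 1 := rfl
  have hMc : ∀ c, c ≤ c1 + c2 + L + 1 → c * (N + 1) ≤ M := fun c hc =>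
    mulle (S := c1 + c2 + L + 1) (by omega) hc
  have hFM : F N ≤ M := by omega
  set e0 := as [z, C * m ^ r, c, c, 0, a, v, 0, 0, n, m, C, u, v + k * a] with he0
  have he0N : ∀ j, e0 j ≤ N := as_le (by
    simp only [List.forall_mem_cons, List.not_mem_nil, IsEmpty.forall_iff, implies_true, and_true]
    omega)
  have hthO : (thO 18 3 6 (WP I k r)).cl e0 = th 18 c v (WP I k r) :=
    thO_cl (fun k hk => free_WP hcon hk) (by omega) (by omega) (by omega) (by omega) e0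
  have p1 : Pr A (s + F N) M ((thO 18 3 6 (WP I k r)).cl e0) := by
    refine (Pr.mem ?_ ?_).mono (show 1 ≤ s + F N by omega) le_rfl
    · rw [hthO]; exact hth
    · refine (Fm.len_cl he0N).trans ?_
      rw [← hL]
      exact hMc _ (by omega)
  have p2 := (g1 e0 N he0N rfl).mono (show f1 N ≤ s + F N by omega) (show f1 N ≤ M by omega)
  have p3 : Pr A (s + F N) M ((I.A 17 (x 13) (x 6) (x 9) .zero).cl e0) := by
    rw [I.clA (by simp [Al])]
    have := (g2 N (v + k * a) v (by show nw k v a ≤ N; omega)).mono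
      (show f2 N ≤ s + F N by omega) (show f2 N ≤ M by omega)
    have e9 : tw (v + k * a) v = n := hn.symm
    rw [e9] at this
    exact this
  have p4 := (g3 e0 N he0N (by
    show v + k * a = v + (Tm.num k).val e0 * a
    rw [Tm.val_num])).mono (show f3 N ≤ s + F N by omega) (show f3 N ≤ M by omega)
  have p5 : Pr A (s + F N) M ((I.A 16 (x 10) (x 9) .zero .zero).cl e0) := by
    rw [I.clA (by simp [Al])]
    have := (g4 N m (by omega)).mono (show f4 N ≤ s + F N by omega) (show f4 N ≤ M by omega)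
    rw [← hm] at this
    exact this
  have p6 := (g5 e0 N he0N (by rw [val_ndT, val_ndT]; exact hv)).mono
    (show f5 N ≤ s + F N by omega) (show f5 N ≤ M by omega)
  have p7 := (g6 e0 N he0N (by
    show C * m ^ r = C * (pwT r (x 10)).val e0
    rw [val_pwT]; rfl)).mono (show f6 N ≤ s + F N by omega) (show f6 N ≤ M by omega)
  have p8 : Pr A (s + F N) M (con.cl e0) := by
    have e3 : con.cl e0 = con.cl (as [z, C * m ^ r]) := hcon.cl_congr rfl rfl
    rw [e3]
    exact q8.mono (by omega) le_rfl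
  have s1 := h1 e0 N M (s + F N) he0N (hMc _ (by omega)) (by
    rw [List.forall_mem_cons, List.forall_mem_cons, List.forall_mem_cons, List.forall_mem_cons,
      List.forall_mem_cons, List.forall_mem_cons, List.forall_mem_cons, List.forall_mem_singleton]
    exact ⟨p1, p2, p3, p4, p5, p6, p7, p8⟩)
  -- the second rule
  set e1 := as [t, n, c, c, 0, a, v, 0, 0, n, m, C, u, v + k * a] with he1
  have he1N : ∀ j, e1 j ≤ N := as_le (by
    simp only [List.forall_mem_cons, List.not_mem_nil, IsEmpty.forall_iff, implies_true, and_true]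
    omega)
  have e4 : (WC I k 5 6).cl e0 = (WC I k 5 6).cl e1 :=
    WC_cl hcon rfl rfl (Or.inl (by omega)) (Or.inl (by omega)) rfl rfl rfl
  rw [e4] at s1
  set w := c1 * (s + F N + 1) + (s + F N) with hw
  have p3' : Pr A w M ((I.A 17 (x 13) (x 6) (x 1) .zero).cl e1) := by
    rw [I.clA (by simp [Al])] at p3 ⊢
    exact p3.mono (by omega) le_rfl
  have p4' := (g3 e1 N he1N (by
    show v + k * a = v + (Tm.num k).val e1 * a
    rw [Tm.val_num])).mono (show f3 N ≤ w by omega) (show f3 N ≤ M by omega)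
  have p9 : Pr A w M ((I.A 25 .zero (x 6) (x 2) (x 0)).cl e1) := by
    rw [I.clA (by simp [Al])]
    exact q9.mono (by omega) le_rfl
  have s2 := h2 e1 N M w he1N (hMc _ (by omega)) (by
    rw [List.forall_mem_cons, List.forall_mem_cons, List.forall_mem_cons,
      List.forall_mem_singleton]
    exact ⟨s1.mono (by omega) le_rfl, p3', p4', p9⟩)
  have e5 : con.cl e1 = con.cl (as [t, n]) := hcon.cl_congr rfl rfl
  rw [e5] at s2
  exact s2.mono ((cost_aux c1 c2 (F N) s).trans (Nat.mul_le_mul_right _ (le_mid _ _ _))) le_rfl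

/-- Consistency facts, with versions. -/
lemma wc_step (hk : 1 ≤ k) : ∃ f, PB f ∧ ∀ᶠ A in rich, ∀ c v a n t N M s,
    n = nw k v a → c ≤ N → n ≤ N → t ≤ N → f N ≤ M →
    Pr A s M (con.cl (as [t, n])) →
    Pr A s M (I.A 25 .zero (.num v) (.num c) (.num t)) →
    Pr A (f N * (s + 1)) M ((WC I k 5 6).cl (as [0, 0, c, c, 0, a, v])) := by
  obtain ⟨c0, h0⟩ := R0 I k hcon
  obtain ⟨f2, hf2, g2⟩ := tw_fact I
  obtain ⟨f3, hf3, g3⟩ := eq_fact (x 13) (.add (x 6) (.mul (.num k) (x 5)))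
  refine ⟨fun N => c0 * (N + 1) + (c0 + 1) * (f2 N + f3 N + 1) + (f2 N + f3 N), ?_, ?_⟩
  · exact (((PB.const _).mul (PB.id.add (PB.const 1))).add ((PB.const _).mul ((hf2.add hf3).add
      (PB.const 1)))).add (hf2.add hf3)
  filter_upwards [h0, g2, g3] with A h0 g2 g3 c v a n t N M s hn hc hnN ht hM q1 q2
  have hva := add_le_nw k v a
  have haN := lt_nw hk v a
  rw [← hn] at hva haN
  set e0 := as [t, n, c, c, 0, a, v, 0, 0, 0, 0, 0, 0, v + k * a] with he0
  have he0N : ∀ j, e0 j ≤ N := as_le (by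
    simp only [List.forall_mem_cons, List.not_mem_nil, IsEmpty.forall_iff, implies_true, and_true]
    omega)
  obtain ⟨w, hw⟩ : ∃ w, w = s + f2 N + f3 N := ⟨_, rfl⟩
  have hfM : f2 N + f3 N ≤ M := by omega
  have p1 : Pr A w M (con.cl e0) := by
    have e3 : con.cl e0 = con.cl (as [t, n]) := hcon.cl_congr rfl rfl
    rw [e3]
    exact q1.mono (by omega) le_rfl
  have p3 : Pr A w M ((I.A 17 (x 13) (x 6) (x 1) .zero).cl e0) := by
    rw [I.clA (by simp [Al])]
    have := (g2 N (v + k * a) v (by show nw k v a ≤ N; omega)).mono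
      (show f2 N ≤ w by omega) (show f2 N ≤ M by omega)
    have e9 : tw (v + k * a) v = n := hn.symm
    rw [e9] at this
    exact this
  have p4 := (g3 e0 N he0N (by
    show v + k * a = v + (Tm.num k).val e0 * a
    rw [Tm.val_num])).mono (show f3 N ≤ w by omega) (show f3 N ≤ M by omega)
  have p9 : Pr A w M ((I.A 25 .zero (x 6) (x 2) (x 0)).cl e0) := by
    rw [I.clA (by simp [Al])]
    exact q2.mono (by omega) le_rfl
  have s2 := h0 e0 N M w he0N (by omega) (by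
    rw [List.forall_mem_cons, List.forall_mem_cons, List.forall_mem_cons,
      List.forall_mem_singleton]
    exact ⟨p1, p3, p4, p9⟩)
  have e4 : (WC I k 5 6).cl e0 = (WC I k 5 6).cl (as [0, 0, c, c, 0, a, v]) :=
    WC_cl hcon rfl rfl (Or.inl (by omega)) (Or.inl (by omega)) rfl rfl rfl
  rw [e4] at s2
  have e6 : w + 1 = s + (f2 N + f3 N) + 1 := by rw [hw]; ring
  rw [e6] at s2
  exact s2.mono ((cost_aux' c0 (f2 N + f3 N) s).trans (Nat.mul_le_mul_right _ (le_mid _ _ _)))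
    le_rfl

/-- The collection of consistency facts before a node. -/
lemma we_step : ∃ f, PB f ∧ ∀ᶠ A in rich, ∀ c v a N M s, c ≤ N → v ≤ N → a ≤ N → f N ≤ M →
    (∀ j < a, Pr A s M ((WC I k 5 6).cl (as [0, 0, c, c, 0, j, v]))) →
    Pr A ((a + 1) * (f N + s)) M ((WE I k 5).cl (as [0, 0, c, c, 0, a, v])) := by
  obtain ⟨c5, h5⟩ := R5 I k hcon
  obtain ⟨c6, h6⟩ := R6 I k hcon
  obtain ⟨fe, hfe, he⟩ := eq_fact (x 5) .zero
  obtain ⟨fe', hfe', he'⟩ := eq_fact (x 8) (.succ (x 5))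
  set C := c5 + c6 + 1 with hC
  refine ⟨fun N => C * (N + 1) + (fe N + fe' N), ?_, ?_⟩
  · exact ((PB.const _).mul (PB.id.add (PB.const 1))).add (hfe.add hfe')
  filter_upwards [h5, h6, he, he'] with A h5 h6 he he' c v a N M s hc hv ha hM hj
  have hMc : ∀ c, c ≤ C → c * (N + 1) ≤ M := fun c hc =>
    mulle (S := C) (by omega) hc
  have hCN : C ≤ C * (N + 1) := Nat.le_mul_of_pos_right _ (by omega)
  set q := C * (N + 1) + (fe N + fe' N) + s with hq
  refine chain (B := A)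
    (P := fun i => (WE I k 5).cl (as [0, 0, c, c, 0, i, v]))
    (s := q) (M := M) (a := a) ?_ ?_ a le_rfl
  · have he0N : ∀ j, as [0, 0, c, c, 0, 0, v] j ≤ N := as_le (by
      simp only [List.forall_mem_cons, List.not_mem_nil, IsEmpty.forall_iff, implies_true,
        and_true]
      omega)
    have q1 := (he _ N he0N rfl).mono (M' := M) le_rfl (by omega)
    exact (h5 _ N M _ he0N (hMc _ (by omega)) q1).mono (by omega) le_rfl
  · intro i hi n hn
    set e1 := as [0, 0, c, c, 0, i, v, 0, i + 1] with he1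
    have he1N : ∀ j, e1 j ≤ N := as_le (by
      simp only [List.forall_mem_cons, List.not_mem_nil, IsEmpty.forall_iff, implies_true,
        and_true]
      omega)
    have q0 : Pr A n M ((WE I k 5).cl e1) := by
      have e3 : (WE I k 5).cl e1 = (WE I k 5).cl (as [0, 0, c, c, 0, i, v]) :=
        WE_cl hcon (by omega) (by omega) rfl rfl rfl
      rw [e3]
      exact hn
    have q1 : Pr A s M ((WC I k 5 6).cl e1) := by
      have e3 : (WC I k 5 6).cl e1 = (WC I k 5 6).cl (as [0, 0, c, c, 0, i, v]) :=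
        WC_cl hcon rfl rfl (Or.inl (by omega)) (Or.inl (by omega)) rfl rfl rfl
      rw [e3]
      exact hj _ (by omega)
    have q2 := (he' e1 N he1N rfl).mono (M' := M) le_rfl (by omega)
    have q3 := h6 e1 N M _ _ _ he1N (hMc _ (by omega)) q0 q1 q2
    have e4 : (WE I k 8).cl e1 = (WE I k 5).cl (as [0, 0, c, c, 0, i + 1, v]) :=
      WE_cl hcon (by omega) (by omega) rfl rfl rfl
    rw [e4] at q3
    exact q3.mono (by omega) le_rfl

/-- The derivation in `B + θ`. -/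
lemma case2_step (hk : 1 ≤ k) : ∃ f, PB f ∧ ∀ᶠ A in rich, ∀ (B : List Fm) c z C u v a n m tA N M s,
    c = wpk I k r B → v = nd z (nd C u) → n = nw k v a → n = 2 ^ m → c ≤ N → n ≤ N →
    C * m ^ r ≤ N → tA ≤ N → f N ≤ M → LSR z → wS I k r B ∈ A →
    Pr A s M ((WE I k 5).cl (as [0, 0, c, c, 0, a, v])) →
    Pr A s M (imp (th 18 c v (WP I k r)) (imp (all 1 (con.sub 0 (.num tA))) .bot)) →
    Pr A s M (I.A 24 .zero (.num v) (.num c) (.num tA)) →
    Pr A s M (I.A 11 (.num z) .zero .zero .zero) →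
    Pr A (f N * (s + 1)) M (con.cl (as [z, C * m ^ r])) := by
  obtain ⟨c7, h7⟩ := R7 I k r hcon
  obtain ⟨c8, h8⟩ := R8 I k r hcon
  obtain ⟨f1, hf1, g1⟩ := eq_fact (x 2) (x 3)
  obtain ⟨f2, hf2, g2⟩ := tw_fact I
  obtain ⟨f3, hf3, g3⟩ := eq_fact (x 13) (.add (x 6) (.mul (.num k) (x 5)))
  obtain ⟨f4, hf4, g4⟩ := ex2_fact I
  obtain ⟨f5, hf5, g5⟩ := eq_fact (x 6) (ndT (x 0) (ndT (x 11) (x 12)))
  obtain ⟨f6, hf6, g6⟩ := eq_fact (x 1) (.mul (x 11) (pwT r (x 10)))
  set L := (wSO I k r).len with hL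
  set F : ℕ → ℕ := fun N => f1 N + f2 N + f3 N + f4 N + f5 N + f6 N + 1 with hF
  have hFP : PB F := ((((((hf1.add hf2).add hf3).add hf4).add hf5).add hf6).add (PB.const 1))
  refine ⟨fun N => (c7 + c8 + L + 1) * (N + 1) + (c8 + 1) * ((c7 + 1) * (F N + 1) + F N + 1) + F N,
    ?_, ?_⟩
  · exact (((PB.const _).mul (PB.id.add (PB.const 1))).add ((PB.const _).mul ((((PB.const _).mul
      (hFP.add (PB.const 1))).add hFP).add (PB.const 1)))).add hFP
  filter_upwards [h7, h8, g1, g2, g3, g4, g5, g6] with A h7 h8 g1 g2 g3 g4 g5 g6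
    B c z C u v a n m tA N M s hcB hv hn hm hc hnN hCm htA hM hLS hth q2 q3 q4 q9
  obtain ⟨hz, hC, hu⟩ := parts_le hv
  have hva := add_le_nw k v a
  have haN := lt_nw hk v a
  have hmn : m < 2 ^ m := Nat.lt_two_pow_self
  rw [← hn] at hva haN
  have hFN : F N = f1 N + f2 N + f3 N + f4 N + f5 N + f6 N + 1 := rfl
  have hMc : ∀ c, c ≤ c7 + c8 + L + 1 → c * (N + 1) ≤ M := fun c hc =>
    mulle (S := c7 + c8 + L + 1) (by omega) hc
  have hFM : F N ≤ M := by omega
  -- the negation of `Φ(v)`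
  set e0 := as [tA, 0, c, c, 0, a, v] with he0
  have he0N : ∀ j, e0 j ≤ N := as_le (by
    simp only [List.forall_mem_cons, List.not_mem_nil, IsEmpty.forall_iff, implies_true, and_true]
    omega)
  have hthO : ∀ e : ℕ → ℕ, e 3 = c → e 6 = v →
      (thO 18 3 6 (WP I k r)).cl e = th 18 c v (WP I k r) := by
    intro e h3 h6
    rw [← h3, ← h6]
    exact thO_cl (fun k hk => free_WP hcon hk) (by omega) (by omega) (by omega) (by omega) e
  have hall : (all 1 con).cl e0 = all 1 (con.sub 0 (.num tA)) := by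
    show all 1 _ = all 1 _
    refine congrArg (all 1) ?_
    rw [sub_sb_num]
    refine Fm.sb_congr fun k hk => ?_
    have := hcon.free k hk
    interval_cases k
    · rw [update_of_ne (show (0 : ℕ) ≠ 1 by omega), update_self]; rfl
    · rw [update_of_ne (show (1 : ℕ) ≠ 0 by omega), update_self]
  have p1 : Pr A (s + F N) M ((imp (thO 18 3 6 (WP I k r)) (imp (all 1 con) .bot)).cl e0) := by
    have : (imp (thO 18 3 6 (WP I k r)) (imp (all 1 con) .bot)).cl e0 =
      imp ((thO 18 3 6 (WP I k r)).cl e0) (imp ((all 1 con).cl e0) .bot) := rfl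
    rw [this, hthO e0 rfl rfl, hall]
    exact q3.mono (by omega) le_rfl
  have p2 : Pr A (s + F N) M ((wSO I k r).cl e0) := by
    refine (Pr.mem ?_ ?_).mono (show 1 ≤ s + F N by omega) le_rfl
    · rw [wSO_cl hcon e0 hcB]; exact hth
    · refine (Fm.len_cl he0N).trans ?_
      rw [← hL]
      exact hMc _ (by omega)
  have p3 : Pr A (s + F N) M ((I.A 24 .zero (x 6) (x 3) (x 0)).cl e0) := by
    rw [I.clA (by simp [Al])]
    exact q4.mono (by omega) le_rfl
  have s1 := h7 e0 N M (s + F N) he0N (hMc _ (by omega)) (by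
    rw [List.forall_mem_cons, List.forall_mem_cons, List.forall_mem_singleton]
    exact ⟨p1, p2, p3⟩)
  -- the conclusion
  set e1 := as [z, C * m ^ r, c, c, 0, a, v, 0, 0, n, m, C, u, v + k * a] with he1
  have he1N : ∀ j, e1 j ≤ N := as_le (by
    simp only [List.forall_mem_cons, List.not_mem_nil, IsEmpty.forall_iff, implies_true, and_true]
    omega)
  set w := c7 * (s + F N + 1) + (s + F N) with hw
  have t1 : Pr A w M ((neg (thO 18 3 6 (WP I k r))).cl e1) := by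
    have e4 : (neg (thO 18 3 6 (WP I k r))).cl e1 = (neg (thO 18 3 6 (WP I k r))).cl e0 := by
      show neg ((thO 18 3 6 (WP I k r)).cl e1) = neg ((thO 18 3 6 (WP I k r)).cl e0)
      rw [hthO e1 rfl rfl, hthO e0 rfl rfl]
    rw [e4]
    exact s1.mono (by omega) le_rfl
  have t2 : Pr A w M ((WE I k 5).cl e1) := by
    have e4 : (WE I k 5).cl e1 = (WE I k 5).cl (as [0, 0, c, c, 0, a, v]) :=
      WE_cl hcon (by omega) (by omega) rfl rfl rfl
    rw [e4]
    exact q2.mono (by omega) le_rfl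
  have t3 := (g1 e1 N he1N rfl).mono (show f1 N ≤ w by omega) (show f1 N ≤ M by omega)
  have t4 : Pr A w M ((I.A 17 (x 13) (x 6) (x 9) .zero).cl e1) := by
    rw [I.clA (by simp [Al])]
    have := (g2 N (v + k * a) v (by show nw k v a ≤ N; omega)).mono
      (show f2 N ≤ w by omega) (show f2 N ≤ M by omega)
    have e9 : tw (v + k * a) v = n := hn.symm
    rw [e9] at this
    exact this
  have t5 := (g3 e1 N he1N (by
    show v + k * a = v + (Tm.num k).val e1 * a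
    rw [Tm.val_num])).mono (show f3 N ≤ w by omega) (show f3 N ≤ M by omega)
  have t6 : Pr A w M ((I.A 16 (x 10) (x 9) .zero .zero).cl e1) := by
    rw [I.clA (by simp [Al])]
    have := (g4 N m (by omega)).mono (show f4 N ≤ w by omega) (show f4 N ≤ M by omega)
    rw [← hm] at this
    exact this
  have t7 := (g5 e1 N he1N (by rw [val_ndT, val_ndT]; exact hv)).mono
    (show f5 N ≤ w by omega) (show f5 N ≤ M by omega)
  have t8 := (g6 e1 N he1N (by
    show C * m ^ r = C * (pwT r (x 10)).val e1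
    rw [val_pwT]; rfl)).mono (show f6 N ≤ w by omega) (show f6 N ≤ M by omega)
  have t9 : Pr A w M ((I.A 11 (x 0) .zero .zero .zero).cl e1) := by
    rw [I.clA (by simp [Al])]
    exact q9.mono (by omega) le_rfl
  have s2 := h8 e1 N M w he1N (hMc _ (by omega)) (by
    rw [List.forall_mem_cons, List.forall_mem_cons, List.forall_mem_cons, List.forall_mem_cons,
      List.forall_mem_cons, List.forall_mem_cons, List.forall_mem_cons, List.forall_mem_cons,
      List.forall_mem_singleton]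
    exact ⟨t1, t2, t3, t4, t5, t6, t7, t8, t9⟩)
  have e5 : con.cl e1 = con.cl (as [z, C * m ^ r]) := hcon.cl_congr rfl rfl
  rw [e5] at s2
  exact s2.mono ((cost_aux c7 c8 (F N) s).trans (Nat.mul_le_mul_right _ (le_mid _ _ _))) le_rfl

end Helper31Con

end

section

/-!
# The second case
-/

namespace Helper31Con

open Function Filter Fm

variable {con : Fm} {g : ℕ → ℕ} {s₀ : ℕ} (I : Iface (Rel con g s₀)) {k : ℕ} (r : ℕ)

/-- The derivation of finite consistency of `S` from a refutation of `T^v`. -/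
lemma case2_prov (hcon : IsCon con) (hk : 1 ≤ k) {F f' : ℕ → ℕ}
    (hbase : ∀ᶠ B in rich, Base I F B)
    (hdec : ∀ᶠ B in rich, ∀ N, ∀ j < 16, DecR I B (f' N) N j) :
    ∃ G, PB G ∧ ∀ᶠ B in rich, (∀ β ∈ B, TrueS β) → ∀ (S : List Fm) (C u v a n m : ℕ),
      (∀ φ ∈ S, Fm.Sentence φ) → v = nd (lc S) (nd C u) → n = nw k v a → n = 2 ^ m →
      wpk I k r B ≤ v → F v ≤ n → f' v ≤ n → lc (wTm I k r B v) ≤ nw k v 0 →
      lc (wA I k r B v) ≤ n → (∀ j < a, F (nw k v j) ≤ n) →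
      (∀ j < a, ¬ Prov (wTm I k r B v) (nw k v j) .bot) →
      Prov (wTm I k r B v) n .bot →
      Pr (wS I k r B :: B) (G n) (G n) (con.cl (as [lc S, C * m ^ r])) := by
  obtain ⟨f2, hf2, g2⟩ := case2_step I k r hcon hk
  obtain ⟨fw, hfw, gw⟩ := wc_step I k hcon hk
  obtain ⟨fe, hfe, ge⟩ := we_step I k hcon
  set L := (thO 18 3 6 (WP I k r)).len with hL
  set N : ℕ → ℕ := fun n => n + n * n ^ r with hN
  have hNP : PB N := PB.id.add (PB.id.mul (PB.id.pow r))
  set LL : ℕ → ℕ := fun n => 5 * (5 * (n + (con.len * (n + 1) + 3) + 2) + L * (n + 1) + 2) + n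
    with hLL
  have hLLP : PB LL := by
    have h1 : PB (fun n => n + 1) := PB.id.add (PB.const 1)
    exact ((PB.const 5).mul ((((PB.const 5).mul ((PB.id.add (((PB.const con.len).mul h1).add
      (PB.const 3))).add (PB.const 2))).add ((PB.const L).mul h1)).add (PB.const 2))).add PB.id
  have hfwN : PB (fun n => fw (N n)) := hfw.comp hNP
  have hfeN : PB (fun n => fe (N n)) := hfe.comp hNP
  have hf2N : PB (fun n => f2 (N n)) := hf2.comp hNP
  set M : ℕ → ℕ := fun n => fw (N n) + fe (N n) + f2 (N n) + LL n with hM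
  have hMP : PB M := ((hfwN.add hfeN).add hf2N).add hLLP
  set P1 : ℕ → ℕ := fun n => fw (N n) * (n + 1) with hP1
  have hP1P : PB P1 := hfwN.mul (PB.id.add (PB.const 1))
  set P2 : ℕ → ℕ := fun n => (n + 1) * (fe (N n) + P1 n) with hP2
  have hP2P : PB P2 := (PB.id.add (PB.const 1)).mul (hfeN.add hP1P)
  set s : ℕ → ℕ := fun n => P2 n + 26 * n with hs
  have hsP : PB s := hP2P.add ((PB.const 26).mul PB.id)
  refine ⟨fun n => f2 (N n) * (s n + 1) + M n, (hf2N.mul (hsP.add (PB.const 1))).add hMP, ?_⟩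
  filter_upwards [rich_up g2, rich_up gw, rich_up ge, rich_up hbase, rich_up hdec] with
    B g2 gw ge hF hd hB S C u v a n m hS hv hn hm hpk hFv hf'v hT0 hA hFj hj hp
  set A := wS I k r B :: B with hAdef
  have hBA : ∀ β ∈ B, β ∈ A := fun _ h => List.mem_cons_of_mem _ h
  replace g2 := g2 A hBA
  replace gw := gw A hBA
  replace ge := ge A hBA
  replace hF := hF A hBA
  replace hd := hd A hBA
  obtain ⟨hz, hC, hu⟩ := parts_le hv
  have hva := add_le_nw k v a
  have haN := lt_nw hk v a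
  have h0a : nw k v 0 ≤ nw k v a := nw_mono (Nat.zero_le a)
  rw [← hn] at hva haN h0a
  have hmn : m < 2 ^ m := Nat.lt_two_pow_self
  have hNn : N n = n + n * n ^ r := rfl
  have hCm : C * m ^ r ≤ n * n ^ r :=
    Nat.mul_le_mul (by omega) (Nat.pow_le_pow_left (by omega) r)
  have hMn : M n = fw (N n) + fe (N n) + f2 (N n) + LL n := rfl
  have hLLn : LL n = 5 * (5 * (n + (con.len * (n + 1) + 3) + 2) + L * (n + 1) + 2) + n := rfl
  have hP1n : P1 n = fw (N n) * (n + 1) := rfl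
  have hP2n : P2 n = (n + 1) * (fe (N n) + P1 n) := rfl
  have hsn : s n = P2 n + 26 * n := rfl
  -- the package
  obtain ⟨c, hc⟩ : ∃ c, c = wpk I k r B := ⟨_, rfl⟩
  obtain ⟨t, ht⟩ : ∃ t, t = lc (wTm I k r B v) := ⟨_, rfl⟩
  obtain ⟨tA, htA⟩ : ∃ t, t = lc (wA I k r B v) := ⟨_, rfl⟩
  rw [← hc] at hpk
  rw [← ht] at hT0
  rw [← htA] at hA
  have hcdt : Pr A (F v) (F v) (I.A 25 .zero (.num v) (.num c) (.num t)) :=
    hF.cdt v 0 v c t (by omega) le_rfl hpk (by rw [hc, ht]; exact wcdT_iff.mpr rfl)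
  have hcda : Pr A (F v) (F v) (I.A 24 .zero (.num v) (.num c) (.num tA)) :=
    hF.cda v 0 v c tA (by omega) le_rfl hpk (by rw [hc, htA]; exact wcdA_iff.mpr rfl)
  -- consistency before the node
  have q1 : ∀ j < a, Pr A (P1 n) (M n) ((WC I k 5 6).cl (as [0, 0, c, c, 0, j, v])) := by
    intro j hja
    have h1 : nw k v j ≤ n := by rw [hn]; exact nw_mono (by omega)
    have h2 : nw k v 0 ≤ nw k v j := nw_mono (Nat.zero_le j)
    have h3 := hF.cons (nw k v j) (wTm I k r B v) (nw k v j) (wTm_sentence hcon hB v)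
      (by rw [← ht]; omega) le_rfl (hj j hja)
    rw [← ht] at h3
    have h4 := hFj j hja
    exact gw c v j (nw k v j) t (N n) (M n) n rfl (by omega) (by omega) (by omega) (by omega)
      (h3.mono (by omega) (by omega)) (hcdt.mono (by omega) (by omega))
  have q2 : Pr A ((a + 1) * (fe (N n) + P1 n)) (M n)
      ((WE I k 5).cl (as [0, 0, c, c, 0, a, v])) :=
    ge c v a (N n) (M n) (P1 n) (by omega) (by omega) (by omega) (by omega) q1
  have q2' : Pr A (s n) (M n) ((WE I k 5).cl (as [0, 0, c, c, 0, a, v])) := by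
    refine q2.mono ?_ le_rfl
    have : (a + 1) * (fe (N n) + P1 n) ≤ P2 n := by
      rw [hP2n]; exact Nat.mul_le_mul_right _ (by omega)
    omega
  -- the refutation
  have q3 : Pr A (s n) (M n) (imp (th 18 c v (WP I k r))
      (imp (all 1 (con.sub 0 (.num tA))) .bot)) := by
    have r1 : Pr (conS con (wA I k r B v) :: wA I k r B v) n n .bot := hp.pr
    have r2 := r1.ded (hcon.conS_sentence _)
    have r3 : Pr (th 18 (wpk I k r B) v (WP I k r) :: B) (5 * n)
        (5 * (n + (conS con (wA I k r B v)).len + 2))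
        (imp (conS con (wA I k r B v)) .bot) := r2
    have r4 := (r3.ded (wth_sentence hcon v)).monoT hBA
    have l1 : (conS con (wA I k r B v)).len ≤ con.len * (n + 1) + 3 := by
      have h4 := len_sub_le con (lc (wA I k r B v))
      rw [← htA] at h4
      have h5 : con.len * (tA + 1) ≤ con.len * (n + 1) := Nat.mul_le_mul_left _ (by omega)
      show (con.sub 0 (.num (lc (wA I k r B v)))).len + (1 + 1) + 1 ≤ _
      rw [← htA]
      omega
    have l2 : (th 18 (wpk I k r B) v (WP I k r)).len ≤ L * (n + 1) := by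
      have h5 : (thO 18 3 6 (WP I k r)).cl
          (as [0, 0, 0, wpk I k r B, 0, 0, v]) = th 18 (wpk I k r B) v (WP I k r) :=
        thO_cl (fun k hk => free_WP hcon hk) (by omega) (by omega) (by omega) (by omega) _
      rw [← h5, hL]
      exact Fm.len_cl (as_le (by
        simp only [List.forall_mem_cons, List.not_mem_nil, IsEmpty.forall_iff, implies_true,
          and_true]
        omega))
    have h6 : all 1 (con.sub 0 (.num tA)) = conS con (wA I k r B v) := by rw [htA]; rfl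
    rw [h6, hc]
    exact r4.mono (by omega) (by omega)
  -- membership of the code of `S`
  have q4 : Pr A (f' v) (f' v) (I.A 11 (.num (lc S)) .zero .zero .zero) :=
    (hd v 11 (by omega) (lc S) 0 0 0 hz (by omega) (by omega) (by omega)).1 ⟨S, rfl, hS⟩
  have key := g2 B c (lc S) C u v a n m tA (N n) (M n) (s n) hc hv hn hm (by omega) (by omega)
    (by omega) (by omega) (by omega) ⟨S, rfl, hS⟩ List.mem_cons_self q2' q3
    (hcda.mono (by omega) (by omega)) (q4.mono (by omega) (by omega))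
  exact key.mono (Nat.le_add_right _ _) (Nat.le_add_left _ _)

/-- Nodes are powers of two. -/
lemma nw_pow {v : ℕ} (hv : 1 ≤ v) (a : ℕ) : nw k v a = 2 ^ tw (v + k * a - 1) v := by
  obtain ⟨w, hw⟩ : ∃ w, v + k * a = w + 1 := ⟨v + k * a - 1, by omega⟩
  unfold nw
  rw [hw, Nat.add_sub_cancel, tw_succ]

lemma eb_le_nw {F : ℕ → ℕ} (hF : EB F) : ∃ h, ∀ v k, h ≤ v → F v ≤ nw k v 0 := by
  obtain ⟨h, hh⟩ := eb_le_tw hF
  exact ⟨h, fun v k hv => (hh v hv).trans (tw_le_tw (by omega) v)⟩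

/-- The second alternative. -/
lemma case2 (hcon : IsCon con) (hk : 1 ≤ k) {F f' : ℕ → ℕ} (hFE : EB F) (hf'E : EB f')
    (hFk : ∀ y, F y ≤ tw k y)
    (hbase : ∀ᶠ B in rich, Base I F B)
    (hdec : ∀ᶠ B in rich, ∀ N, ∀ j < 16, DecR I B (f' N) N j) :
    ∀ᶠ B in rich, (∀ β ∈ B, TrueS β) →
      (∀ (S : List Fm) (C u : ℕ), (∀ φ ∈ S, Fm.Sentence φ) → (∀ n, ¬ Prov S n .bot) →
        ∃ n, Prov (wTm I k r B (nd (lc S) (nd C u))) n .bot) →
      ∀ S : List Fm, (∀ φ ∈ S, Fm.Sentence φ) → (∀ n, ¬ Prov S n .bot) → ∀ D M : ℕ,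
        ∃ m ≥ M, Prov (wS I k r B :: B) (2 ^ m) (conN con S (D * m ^ r)) := by
  obtain ⟨G, hG, h⟩ := case2_prov I r hcon hk hbase hdec
  obtain ⟨c, hc⟩ := pb_le_pow hG
  obtain ⟨h1, hh1⟩ := eb_le_nw hFE
  obtain ⟨h2, hh2⟩ := eb_le_nw hf'E
  obtain ⟨h3, hh3⟩ := eb_le_nw (Tb_eb con)
  obtain ⟨h4, hh4⟩ := eb_le_nw Zb_eb
  filter_upwards [h] with B h hB hinc S hS hScons D M
  obtain ⟨p, hp⟩ : ∃ p, p = wpk I k r B := ⟨_, rfl⟩
  obtain ⟨w, hw⟩ : ∃ w, w = 2 ^ M := ⟨_, rfl⟩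
  set u := h1 + h2 + h3 + h4 + p + w + 2 with hu
  set C := D * (c + 1) ^ r with hC
  obtain ⟨v, hv⟩ : ∃ v, v = nd (lc S) (nd C u) := ⟨_, rfl⟩
  obtain ⟨hz, hCv, huv⟩ := parts_le hv
  obtain ⟨ℓ, hℓ⟩ := hinc S C u hS hScons
  rw [← hv] at hℓ
  have hex : ∃ a, Prov (wTm I k r B v) (nw k v a) .bot := ⟨ℓ, hℓ.mono (lt_nw hk v ℓ)⟩
  classical
  obtain ⟨a, ha⟩ : ∃ a, a = Nat.find hex := ⟨_, rfl⟩
  have ha1 : Prov (wTm I k r B v) (nw k v a) .bot := by rw [ha]; exact Nat.find_spec hex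
  have ha2 : ∀ j < a, ¬ Prov (wTm I k r B v) (nw k v j) .bot := by
    intro j hj
    rw [ha] at hj
    exact Nat.find_min hex hj
  obtain ⟨n, hn⟩ : ∃ n, n = nw k v a := ⟨_, rfl⟩
  obtain ⟨m, hm⟩ : ∃ m, m = tw (v + k * a - 1) v := ⟨_, rfl⟩
  have hnm : n = 2 ^ m := by rw [hn, hm]; exact nw_pow (by omega) a
  have h0 : nw k v 0 ≤ n := by rw [hn]; exact nw_mono (Nat.zero_le a)
  have hvn : v ≤ n := by rw [hn]; exact le_nw k v a
  have hFj : ∀ j < a, F (nw k v j) ≤ n := by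
    intro j hj
    refine (hFk _).trans ?_
    rw [← nw_succ, hn]
    exact nw_mono hj
  have hT : lc (wTm I k r B v) ≤ nw k v 0 :=
    (cdT_le (wcdT_iff.mpr rfl) (Nat.zero_le v) le_rfl (by rw [← hp]; omega)).trans
      (hh3 v k (by omega))
  have hA : lc (wA I k r B v) ≤ n :=
    ((cdA_le (wcdA_iff.mpr rfl) (Nat.zero_le v) le_rfl (by rw [← hp]; omega)).trans
      (hh4 v k (by omega))).trans h0
  have key := h hB S C u v a n m hS hv hn hnm (by rw [← hp]; omega)
    ((hh1 v k (by omega)).trans h0) ((hh2 v k (by omega)).trans h0) hT hA hFj ha2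
    (by rw [hn]; exact ha1)
  have hMm : M ≤ m := by
    have h5 : 2 ^ M ≤ 2 ^ m := by rw [← hnm, ← hw]; omega
    exact (Nat.pow_le_pow_iff_right (by omega)).mp h5
  refine ⟨(c + 1) * m, ?_, ?_⟩
  · have : m ≤ (c + 1) * m := Nat.le_mul_of_pos_left _ (by omega)
    omega
  · rw [hcon.conN_eq]
    have e1 : D * ((c + 1) * m) ^ r = C * m ^ r := by rw [hC, mul_pow]; ring
    rw [e1]
    refine key.prov.mono ((hc n (by omega)).trans ?_)
    rw [hnm, ← pow_mul]
    refine Nat.pow_le_pow_right (by omega) ?_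
    nlinarith

end Helper31Con

end

section

/-!
# The dichotomy
-/

namespace Helper31Con

open Function Filter Fm

section

variable {con : Fm} {g : ℕ → ℕ} {s₀ : ℕ} (I : Iface (Rel con g s₀)) {k : ℕ} (r : ℕ)

/-- The first alternative. -/
lemma case1 (hcon : IsCon con) (hk : 1 ≤ k) (hr : 1 ≤ r) {F : ℕ → ℕ}
    (hbase : ∀ᶠ B in rich, Base I F B) :
    ∀ᶠ B in rich, (∀ β ∈ B, TrueS β) →
      ∀ (S : List Fm) (C u : ℕ), (∀ φ ∈ S, Fm.Sentence φ) → (∀ n, ¬ Prov S n .bot) →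
      (∀ n, ¬ Prov (wTm I k r B (nd (lc S) (nd C u))) n .bot) →
      ∃ (A : List Fm) (c x₀ : ℕ), (∀ φ ∈ A, TrueS φ) ∧ (∀ φ ∈ B, φ ∈ A) ∧
        (∀ n, ¬ Prov (conS con A :: A) n .bot) ∧
        ∀ x ≥ x₀, ∃ N, x ≤ N ∧ N ≤ tw c x ∧ ∀ l n, n ≤ N → N ≤ n ^ l →
          Prov A (2 ^ (c * (l * (Nat.log 2 n + 1)) ^ r)) (conN con (conS con A :: A) n) := by
  obtain ⟨f1, hf1, g1⟩ := case1_step I k r hcon hk
  obtain ⟨fd, Fd, hfd, gd⟩ := con_down hcon
  obtain ⟨fd', hfd'P, hfd'm, hfd'⟩ := hfd.exists_mono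
  filter_upwards [rich_up g1, rich_up gd, rich_up hbase, eff_brute hcon] with
    B g1 gd hF hE hB S C u hS hScons hTcons
  obtain ⟨v, hv⟩ : ∃ v, v = nd (lc S) (nd C u) := ⟨_, rfl⟩
  rw [← hv] at hTcons
  set A := wA I k r B v with hAdef
  have hBA : ∀ β ∈ B, β ∈ A := fun _ h => List.mem_cons_of_mem _ h
  replace g1 := g1 A hBA
  replace gd := gd A hBA
  replace hF := hF A hBA
  obtain ⟨cS, hcS⟩ := hE S hS hScons
  obtain ⟨p, hp⟩ : ∃ p, p = wpk I k r B := ⟨_, rfl⟩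
  obtain ⟨t, ht⟩ : ∃ t, t = lc (wTm I k r B v) := ⟨_, rfl⟩
  obtain ⟨κ, hκ⟩ : ∃ κ, κ = F (v + p) := ⟨_, rfl⟩
  obtain ⟨K0, hK0⟩ : ∃ K0, K0 = Fd t := ⟨_, rfl⟩
  obtain ⟨hz, hCv, huv⟩ := parts_le hv
  have hP : wP con k r (wpk I k r B) v := wP_of hcon hB hTcons
  have hcdt : Pr A κ κ (I.A 25 .zero (.num v) (.num p) (.num t)) := by
    rw [hκ]
    exact hF.cdt (v + p) 0 v p t (by omega) (by omega) (by omega)
      (by rw [hp, ht]; exact wcdT_iff.mpr rfl)
  set NN : ℕ → ℕ := fun K => 2 ^ K + C * K + (p + t + v) with hNN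
  set ss : ℕ → ℕ := fun K => 2 ^ (cS * (C * K + 1)) + κ with hss
  set MM : ℕ → ℕ := fun K => f1 (NN K) + ss K with hMM
  set PP : ℕ → ℕ := fun K => (f1 (NN K) * (ss K + 1)) * MM K with hPP
  have s1 : SE (fun K => 2 ^ K) := ⟨1, fun K => Nat.pow_le_pow_right (by omega) (by omega)⟩
  have s2 : SE NN := (s1.add ((SE.const C).mul SE.id)).add (SE.const _)
  have s3 : SE ss := by
    refine SE.add ?_ (SE.const κ)
    refine (SE.lin 2 (cS * C) cS).of_le fun K => le_of_eq (congrArg (2 ^ ·) ?_)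
    ring
  have s4 : SE (fun K => f1 (NN K)) := SE.pb hf1 s2
  have s5 : SE MM := s4.add s3
  have s6 : SE PP := (s4.mul (s3.add (SE.const 1))).mul s5
  have s7 : SE (fun K => fd' (2 ^ K + PP K + K0)) :=
    SE.pb hfd'P ((s1.add s6).add (SE.const K0))
  obtain ⟨c1, hc1⟩ := s7
  refine ⟨A, 2 * c1 + k, nw k v 0 + 2, wA_true hcon hB hP, hBA, hTcons, fun x hx => ?_⟩
  -- the node
  have hex : ∃ a, x ≤ nw k v a := ⟨x, lt_nw hk v x⟩
  classical
  obtain ⟨a, ha⟩ : ∃ a, a = Nat.find hex := ⟨_, rfl⟩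
  have ha1 : x ≤ nw k v a := by rw [ha]; exact Nat.find_spec hex
  have ha0 : a ≠ 0 := by rintro rfl; omega
  obtain ⟨b, rfl⟩ : ∃ b, a = b + 1 := ⟨a - 1, by omega⟩
  have ha2 : nw k v b < x := by
    by_contra h
    exact Nat.find_min hex (by omega) (not_lt.mp h)
  refine ⟨nw k v (b + 1), ha1, ?_, fun l n hn hl => ?_⟩
  · rw [nw_succ]
    exact (tw_mono k ha2.le).trans (tw_le_tw (by omega) x)
  obtain ⟨m, hm⟩ : ∃ m, m = tw (v + k * (b + 1) - 1) v := ⟨_, rfl⟩
  obtain ⟨n', hn'⟩ : ∃ n', n' = nw k v (b + 1) := ⟨_, rfl⟩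
  have hv1 : 1 ≤ v := by rw [hv]; exact nd_pos _ _
  have hnm : n' = 2 ^ m := by rw [hn', hm]; exact nw_pow hv1 (b + 1)
  rw [← hn'] at ha1 hn hl
  have hm1 : 1 ≤ m := by
    by_contra h
    have : m = 0 := by omega
    rw [this] at hnm
    omega
  obtain ⟨K, hK⟩ : ∃ K, K = m ^ r := ⟨_, rfl⟩
  have hmK : m ≤ K := by
    rw [hK]
    calc m = m ^ 1 := (pow_one m).symm
      _ ≤ m ^ r := Nat.pow_le_pow_right hm1 hr
  have h2K : n' ≤ 2 ^ K := by rw [hnm]; exact Nat.pow_le_pow_right (by omega) hmK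
  have hNNK : NN K = 2 ^ K + C * K + (p + t + v) := rfl
  have hssK : ss K = 2 ^ (cS * (C * K + 1)) + κ := rfl
  have hMMK : MM K = f1 (NN K) + ss K := rfl
  have q1 : Pr A (ss K) (MM K) (con.cl (as [lc S, C * m ^ r])) := by
    have h1 := (hcS (C * K)).pr.monoT hBA
    rw [hcon.conN_eq, hK] at h1
    rw [hK] at hssK
    refine h1.mono ?_ ?_
    · rw [hK]; omega
    · rw [hK] at hMMK ⊢; omega
  have key := g1 p (lc S) C u v (b + 1) n' m t (NN K) (MM K) (ss K) hv hn' hnm (by omega)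
    (by omega) (by rw [← hK]; omega) (by omega) (by omega)
    (by rw [hp]; exact List.mem_cons_self) q1
    (hcdt.mono (Nat.le_add_left κ _) ((Nat.le_add_left κ _).trans (Nat.le_add_left (ss K) _)))
  have key2 := gd (wTm I k r B v) n' n _ (wTm_sentence hcon hB v) hn (by
    rw [← ht]; exact key.prov)
  have hT : conS con A :: A = wTm I k r B v := rfl
  rw [hT, hcon.conN_eq]
  refine key2.mono ((hfd' _).trans ((hfd'm ?_).trans ((hc1 K).trans ?_)))
  · rw [← ht, ← hK0]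
    exact Nat.add_le_add_right (Nat.add_le_add_right h2K _) _
  · refine Nat.pow_le_pow_right (by omega) ?_
    have h3 : m ≤ l * (Nat.log 2 n + 1) := by
      have h4 : n ^ l ≤ (2 ^ (Nat.log 2 n + 1)) ^ l :=
        Nat.pow_le_pow_left (Nat.lt_pow_succ_log_self (by omega) n).le l
      rw [← pow_mul] at h4
      have h5 : 2 ^ m ≤ 2 ^ ((Nat.log 2 n + 1) * l) := by rw [← hnm]; exact hl.trans h4
      have h6 := (Nat.pow_le_pow_iff_right (by omega)).mp h5
      rwa [Nat.mul_comm] at h6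
    have h7 : K ≤ (l * (Nat.log 2 n + 1)) ^ r := by rw [hK]; exact Nat.pow_le_pow_left h3 r
    have hK1 : 1 ≤ K := hm1.trans hmK
    calc c1 * (K + 1) ≤ c1 * (2 * K) := Nat.mul_le_mul_left _ (by omega)
      _ = (2 * c1) * K := by ring
      _ ≤ (2 * c1 + k) * (l * (Nat.log 2 n + 1)) ^ r := Nat.mul_le_mul (by omega) h7

end

lemma tw_eq_iter (c x : ℕ) : tw c x = (fun t => 2 ^ t)^[c] x := by
  induction c with
  | zero => rfl
  | succ c ih => rw [iterate_succ_apply', ← ih, tw_succ]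

/-- The dichotomy. -/
theorem dichotomy {con : Fm} (hcon : IsCon con) (B₀ : List Fm) (hB₀ : ∀ β ∈ B₀, TrueS β)
    (r : ℕ) (hr : 1 ≤ r) :
    (∃ (A : List Fm) (c x₀ : ℕ), (∀ φ ∈ A, TrueS φ) ∧ (∀ φ ∈ B₀, φ ∈ A) ∧ (∀ φ ∈ Q, φ ∈ A) ∧
      (∀ n, ¬ Prov (conS con A :: A) n .bot) ∧
      ∀ x ≥ x₀, ∃ N, x ≤ N ∧ N ≤ (fun t => 2 ^ t)^[c] x ∧ ∀ k n, n ≤ N → N ≤ n ^ k →
        Prov A (2 ^ (c * (k * (Nat.log 2 n + 1)) ^ r)) (conN con (conS con A :: A) n)) ∨
    (∃ E : List Fm, (∀ φ ∈ E, TrueS φ) ∧ (∀ φ ∈ B₀, φ ∈ E) ∧ (∀ φ ∈ Q, φ ∈ E) ∧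
      ∀ S : List Fm, (∀ φ ∈ S, Fm.Sentence φ) → (∀ n, ¬ Prov S n .bot) →
        ∀ D M : ℕ, ∃ m ≥ M, Prov E (2 ^ m) (conN con S (D * m ^ r))) := by
  obtain ⟨I⟩ := exists_iface con (eq (x 1) (.succ (x 0))) (fun n => n + 1) 1 (fun e => Iff.rfl)
    ⟨fun a b h => Nat.add_le_add_right h 1, le_rfl, fun n _ => Nat.lt_succ_self n⟩
  obtain ⟨F, hF, hFm, hbase⟩ := exists_base I hcon
  obtain ⟨f', hf', hdec⟩ := dec_all I
  obtain ⟨h, hh⟩ := hF
  obtain ⟨k, hk⟩ : ∃ k, k = 2 * h + 1 := ⟨_, rfl⟩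
  have hk1 : 1 ≤ k := by omega
  have hFk : ∀ y, F y ≤ tw k y := by
    intro y
    refine (hh y).trans ((tw_mono h (add_le_tw h y)).trans ?_)
    rw [← tw_add]
    exact tw_le_tw (by omega) y
  obtain ⟨B₁, hB₁, hB₁'⟩ := rich_iff.mp ((case1 I r hcon hk1 hr hbase).and
    (case2 I r hcon hk1 ⟨h, hh⟩ hf' hFk hbase hdec))
  set B := B₁ ++ (B₀ ++ Q) with hBdef
  have hB : ∀ β ∈ B, TrueS β := by
    intro β hβ
    rcases List.mem_append.mp hβ with h | h
    · exact hB₁ β h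
    · rcases List.mem_append.mp h with h | h
      · exact hB₀ β h
      · exact Q_true β h
  obtain ⟨c1, c2⟩ := hB₁' B (fun β hβ => List.mem_append_left _ hβ)
  have hB₀B : ∀ φ ∈ B₀, φ ∈ B := fun φ hφ =>
    List.mem_append_right _ (List.mem_append_left _ hφ)
  have hQB : ∀ φ ∈ Q, φ ∈ B := fun φ hφ =>
    List.mem_append_right _ (List.mem_append_right _ hφ)
  by_cases hex : ∃ (S : List Fm) (C u : ℕ), (∀ φ ∈ S, Fm.Sentence φ) ∧ (∀ n, ¬ Prov S n .bot) ∧
      ∀ n, ¬ Prov (wTm I k r B (nd (lc S) (nd C u))) n .bot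
  · left
    obtain ⟨S, C, u, hS, hScons, hT⟩ := hex
    obtain ⟨A, c, x₀, h1, h2, h3, h4⟩ := c1 hB S C u hS hScons hT
    refine ⟨A, c, x₀, h1, fun φ hφ => h2 φ (hB₀B φ hφ), fun φ hφ => h2 φ (hQB φ hφ), h3,
      fun y hy => ?_⟩
    obtain ⟨N, h5, h6, h7⟩ := h4 y hy
    exact ⟨N, h5, by rw [← tw_eq_iter]; exact h6, h7⟩
  · right
    refine ⟨wS I k r B :: B, ?_, fun φ hφ => List.mem_cons_of_mem _ (hB₀B φ hφ),
      fun φ hφ => List.mem_cons_of_mem _ (hQB φ hφ), c2 hB ?_⟩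
    · intro φ hφ
      rcases List.mem_cons.mp hφ with rfl | hφ
      · exact wS_true hcon hB
      · exact hB φ hφ
    · intro S C u hS hScons
      by_contra hne
      push Not at hne
      exact hex ⟨S, C, u, hS, hScons, hne⟩

end Helper31Con

end
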