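import Pool.Agent.Helper31_Eff.Facts4
import Pool.Agent.Helper31_Con.Inst4

section

/-!
# Derivations that the machine does not find a refutation
-/

namespace Helper31Con

open Function Filter Fm

lemma Ev.all_lt {P : ℕ → Cx → Prop} (n : ℕ) (h : ∀ d < n, Ev (P d)) :
    Ev fun X => ∀ d < n, P d X := by
  induction n with
  | zero =>
    have := ev_one
    exact this.mono fun X _ d hd => absurd hd (by omega)
  | succ n ih =>
    refine ((ih fun d hd => h d (by omega)).and (h n (by omega))).mono ?_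
    rintro X ⟨h1, h2⟩ d hd
    rcases Nat.lt_succ_iff_lt_or_eq.mp hd with hd | rfl
    · exact h1 d hd
    · exact h2

/-! ### Semantics of the rules -/

lemma srcP_inj {v w : ℕ → ℕ} (h : srcP.val v = srcP.val w) : ∀ k < 11, v k = w k := by
  simp only [srcP, val_ndT, Tm.val, nd_inj] at h
  obtain ⟨⟨⟨h0, h1, h2, h3, h4⟩, h5, h6, h7, h8⟩, h9, h10⟩ := h
  intro k hk
  interval_cases k <;> assumption

lemma stR_src {z d s' : ℕ} {e : ℕ → ℕ} (h : StR z d (srcP.val e) s') :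
    CondR z d e ∧ s' = (dstP d).val e := by
  obtain ⟨_, v, h1, h2, h3⟩ := h
  have hv := srcP_inj h1
  refine ⟨(condR_congr hv).mpr h2, ?_⟩
  rw [h3]
  exact Tm.val_congr fun k hk => (hv k (dstP_has hk)).symm

lemma aodR_succ {z s m d : ℕ} (h : AOdR z s m d) (h' : ∀ s', StR z d s s' → AOR z m s') :
    AOdR z s m (d + 1) := by
  intro d' hd s' hs
  rcases Nat.lt_succ_iff_lt_or_eq.mp hd with hd | rfl
  · exact h d' hd s' hs
  · exact h' s' hs

lemma alw_srcP : srcP.Alw := fun k hk => al_lt (by have := srcP_has hk; omega)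
lemma alw_dstP (d : ℕ) : (dstP d).Alw := fun k hk => al_lt (by have := dstP_has hk; omega)

/-! ### States -/

/-- States of the machine. -/
structure St where
  ts : List Tm
  fs : List Fm
  k : ℕ
  th : List Fm

/-- Closed term for a state. -/
def stT (s : St) : Tm := stP (ltT s.ts) (lT s.fs) (nT s.k) (lT s.th)

/-- States with enough elements. -/
structure S7 where
  t0 : Tm
  t1 : Tm
  t2 : Tm
  t3 : Tm
  ts : List Tm
  f0 : Fm
  f1 : Fm
  f2 : Fm
  fs : List Fm
  k : ℕ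
  th : List Fm

/-- The state. -/
def S7.st (s : S7) : St := ⟨s.t0 :: s.t1 :: s.t2 :: s.t3 :: s.ts, s.f0 :: s.f1 :: s.f2 :: s.fs, s.k, s.th⟩

/-- The next state. -/
def S7.nx (s : S7) : ℕ → St
  | 0 => ⟨s.t0 :: s.t1 :: s.t2 :: s.t3 :: s.ts, s.f0 :: s.f1 :: s.f2 :: s.fs, s.k + 1, s.th⟩
  | 1 => ⟨.var s.k :: s.t0 :: s.t1 :: s.t2 :: s.t3 :: s.ts, s.f0 :: s.f1 :: s.f2 :: s.fs, 0, s.th⟩
  | 2 => ⟨.zero :: s.t0 :: s.t1 :: s.t2 :: s.t3 :: s.ts, s.f0 :: s.f1 :: s.f2 :: s.fs, s.k, s.th⟩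
  | 3 => ⟨.succ s.t0 :: s.t1 :: s.t2 :: s.t3 :: s.ts, s.f0 :: s.f1 :: s.f2 :: s.fs, s.k, s.th⟩
  | 4 => ⟨.add s.t1 s.t0 :: s.t2 :: s.t3 :: s.ts, s.f0 :: s.f1 :: s.f2 :: s.fs, s.k, s.th⟩
  | 5 => ⟨.mul s.t1 s.t0 :: s.t2 :: s.t3 :: s.ts, s.f0 :: s.f1 :: s.f2 :: s.fs, s.k, s.th⟩
  | 6 => ⟨s.t0 :: s.t1 :: s.t2 :: s.t3 :: s.ts, .bot :: s.f0 :: s.f1 :: s.f2 :: s.fs, s.k, s.th⟩
  | 7 => ⟨s.t2 :: s.t3 :: s.ts, .eq s.t1 s.t0 :: s.f0 :: s.f1 :: s.f2 :: s.fs, s.k, s.th⟩
  | 8 => ⟨s.t2 :: s.t3 :: s.ts, .le s.t1 s.t0 :: s.f0 :: s.f1 :: s.f2 :: s.fs, s.k, s.th⟩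
  | 9 => ⟨s.t0 :: s.t1 :: s.t2 :: s.t3 :: s.ts, .imp s.f1 s.f0 :: s.f2 :: s.fs, s.k, s.th⟩
  | 10 => ⟨s.t0 :: s.t1 :: s.t2 :: s.t3 :: s.ts, .all s.k s.f0 :: s.f1 :: s.f2 :: s.fs, 0, s.th⟩
  | 11 => ⟨s.t0 :: s.t1 :: s.t2 :: s.t3 :: s.ts, s.f2 :: s.fs, s.k,
      .imp s.f1 (.imp s.f0 s.f1) :: s.th⟩
  | 12 => ⟨s.t0 :: s.t1 :: s.t2 :: s.t3 :: s.ts, s.fs, s.k,
      .imp (.imp s.f2 (.imp s.f1 s.f0)) (.imp (.imp s.f2 s.f1) (.imp s.f2 s.f0)) :: s.th⟩
  | 13 => ⟨s.t0 :: s.t1 :: s.t2 :: s.t3 :: s.ts, s.f1 :: s.f2 :: s.fs, s.k,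
      .imp (.imp (.imp s.f0 .bot) .bot) s.f0 :: s.th⟩
  | 14 => ⟨s.t1 :: s.t2 :: s.t3 :: s.ts, s.f0 :: s.f1 :: s.f2 :: s.fs, s.k,
      .eq s.t0 s.t0 :: s.th⟩
  | 15 => ⟨s.t2 :: s.t3 :: s.ts, s.f0 :: s.f1 :: s.f2 :: s.fs, s.k,
      .imp (.eq s.t1 s.t0) (.eq (.succ s.t1) (.succ s.t0)) :: s.th⟩
  | 16 => ⟨s.ts, s.f0 :: s.f1 :: s.f2 :: s.fs, s.k,
      .imp (.eq s.t3 s.t2) (.imp (.eq s.t1 s.t0) (.eq (.add s.t3 s.t1) (.add s.t2 s.t0))) :: s.th⟩
  | 17 => ⟨s.ts, s.f0 :: s.f1 :: s.f2 :: s.fs, s.k,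
      .imp (.eq s.t3 s.t2) (.imp (.eq s.t1 s.t0) (.eq (.mul s.t3 s.t1) (.mul s.t2 s.t0))) :: s.th⟩
  | 18 => ⟨s.ts, s.f0 :: s.f1 :: s.f2 :: s.fs, s.k,
      .imp (.eq s.t3 s.t2) (.imp (.eq s.t1 s.t0) (.imp (.eq s.t3 s.t1) (.eq s.t2 s.t0))) :: s.th⟩
  | 19 => ⟨s.ts, s.f0 :: s.f1 :: s.f2 :: s.fs, s.k,
      .imp (.eq s.t3 s.t2) (.imp (.eq s.t1 s.t0) (.imp (.le s.t3 s.t1) (.le s.t2 s.t0))) :: s.th⟩
  | 20 => ⟨s.t1 :: s.t2 :: s.t3 :: s.ts, s.f2 :: s.fs, 0, .imp (.all s.k s.f1) s.f0 :: s.th⟩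
  | 21 => ⟨s.t0 :: s.t1 :: s.t2 :: s.t3 :: s.ts, s.f2 :: s.fs, 0,
      .imp (.all s.k (.imp s.f1 s.f0)) (.imp s.f1 (.all s.k s.f0)) :: s.th⟩
  | 22 => ⟨s.t0 :: s.t1 :: s.t2 :: s.t3 :: s.ts, s.f1 :: s.f2 :: s.fs, s.k, s.f0 :: s.th⟩
  | 23 => ⟨s.t0 :: s.t1 :: s.t2 :: s.t3 :: s.ts, s.f1 :: s.f2 :: s.fs, 0, .all s.k s.f0 :: s.th⟩
  | 24 => ⟨s.t0 :: s.t1 :: s.t2 :: s.t3 :: s.ts, s.f1 :: s.f2 :: s.fs, s.k, s.f0 :: s.th⟩
  | _ => s.st

/-- The conditions. -/
def S7.cond (s : S7) (S : List Fm) : ℕ → Prop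
  | 20 => s.f1.FreeFor s.k s.t0 ∧ s.f0 = s.f1.sub s.k s.t0
  | 21 => ¬ s.f1.Free s.k
  | 22 => MpL s.th s.th s.f0
  | 23 => s.f0 ∈ s.th
  | 24 => s.f0 ∈ S
  | _ => True

lemma S7.cond_of_lt (s : S7) (S : List Fm) {d : ℕ} (hd : d < 20) : s.cond S d := by
  interval_cases d <;> exact True.intro

/-- The substitution for a state. -/
def S7.tau (s : S7) (z m : Tm) : ℕ → Tm :=
  ta [tT s.t0, tT s.t1, tT s.t2, tT s.t3, ltT s.ts, fT s.f0, fT s.f1, fT s.f2, lT s.fs, nT s.k,
    lT s.th, z, m]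

lemma S7.src_sb (s : S7) (z m : Tm) : srcP.sb (s.tau z m) = stT s.st := rfl

lemma S7.dst_sb (s : S7) (z m : Tm) {d : ℕ} (hd : d < 25) :
    (dstP d).sb (s.tau z m) = stT (s.nx d) := by
  interval_cases d <;> rfl

/-- Provable. -/
def PrS (S : List Fm) (φ : Fm) : Prop := ∃ L, IsProof S L ∧ φ ∈ L

lemma PrS.prov {S : List Fm} {φ : Fm} (h : PrS S φ) : ∃ n, Prov S n φ := by
  obtain ⟨L, h1, h2⟩ := h
  exact ⟨_, Pr.prov ⟨L, h1, h2, le_rfl, fun ψ hψ => len_le_plen hψ⟩⟩

lemma PrS.ax {S : List Fm} {φ : Fm} (h : Ax φ) : PrS S φ := ⟨[φ], ⟨trivial, Or.inr (Or.inl h)⟩,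
  List.mem_singleton_self φ⟩

lemma PrS.mem {S : List Fm} {φ : Fm} (h : φ ∈ S) : PrS S φ := ⟨[φ], ⟨trivial, Or.inl h⟩,
  List.mem_singleton_self φ⟩

lemma PrS.mp {S : List Fm} {φ ψ : Fm} (h : PrS S (imp φ ψ)) (h' : PrS S φ) : PrS S ψ := by
  obtain ⟨L, h1, h2⟩ := h
  obtain ⟨L', h1', h2'⟩ := h'
  exact ⟨ψ :: (L ++ L'), ⟨h1.append h1', Or.inr (Or.inr (Or.inl ⟨φ,
    List.mem_append_right _ h2', List.mem_append_left _ h2⟩))⟩, List.mem_cons_self⟩

lemma PrS.gen {S : List Fm} {φ : Fm} (k : ℕ) (h : PrS S φ) : PrS S (all k φ) := by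
  obtain ⟨L, h1, h2⟩ := h
  exact ⟨all k φ :: L, ⟨h1, Or.inr (Or.inr (Or.inr ⟨k, φ, h2, rfl⟩))⟩, List.mem_cons_self⟩

lemma S7.nx_th {s : S7} {S : List Fm} {d : ℕ} (hd : d < 25) (hc : s.cond S d)
    (h : ∀ φ ∈ s.th, PrS S φ) : ∀ φ ∈ (s.nx d).th, PrS S φ := by
  have key : ∀ ψ, PrS S ψ → ∀ φ ∈ ψ :: s.th, PrS S φ := by
    intro ψ hψ φ hφ
    rcases List.mem_cons.mp hφ with rfl | hφ
    · exact hψ
    · exact h φ hφ
  interval_cases d
  · exact h
  · exact h
  · exact h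
  · exact h
  · exact h
  · exact h
  · exact h
  · exact h
  · exact h
  · exact h
  · exact h
  · exact key _ (PrS.ax (Ax.k _ _))
  · exact key _ (PrS.ax (Ax.s _ _ _))
  · exact key _ (PrS.ax (Ax.dne _))
  · exact key _ (PrS.ax (Ax.refl _))
  · exact key _ (PrS.ax (Ax.congS _ _))
  · exact key _ (PrS.ax (Ax.congAdd _ _ _ _))
  · exact key _ (PrS.ax (Ax.congMul _ _ _ _))
  · exact key _ (PrS.ax (Ax.congEq _ _ _ _))
  · exact key _ (PrS.ax (Ax.congLe _ _ _ _))
  · obtain ⟨h1, h2⟩ : s.f1.FreeFor s.k s.t0 ∧ s.f0 = s.f1.sub s.k s.t0 := hc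
    refine key _ (PrS.ax ?_)
    rw [h2]
    exact Ax.inst _ _ _ h1
  · exact key _ (PrS.ax (Ax.dist _ _ _ hc))
  · obtain ⟨χ, h1, h2⟩ : MpL s.th s.th s.f0 := hc
    exact key _ ((h _ h1).mp (h _ h2))
  · exact key _ ((h _ hc).gen _)
  · exact key _ (PrS.mem hc)

/-! ### Sizes -/

/-- The potential. -/
def St.pot (s : St) : ℕ := 4 * (tsz s.ts + fsz s.fs + s.k) + fsz s.th

lemma S7.nx_pot (s : S7) {d : ℕ} (hd : d < 25) : (s.nx d).pot ≤ s.st.pot + 8 := by
  have p0 := s.f0.len_pos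
  have p1 := s.f1.len_pos
  interval_cases d <;> simp only [S7.nx, S7.st, St.pot, tsz, fsz, Fm.len, Tm.len] <;> omega

lemma S7.nx_len (s : S7) {d : ℕ} (hd : d < 25) : s.ts.length ≤ (s.nx d).ts.length ∧
    s.fs.length ≤ (s.nx d).fs.length := by
  interval_cases d <;> simp only [S7.nx, List.length_cons] <;> omega

lemma bd_stT (s : St) : Bd8 (stT s) (s.pot + 4) := by
  refine (((bd_ltT s.ts).ndT (bd_lT s.fs)).ndT ((Bd8.num s.k).ndT (bd_lT s.th))).mono ?_
  simp only [St.pot]; omega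

lemma cld_stT (s : St) : (stT s).Cld :=
  ((cld_ltT _).ndT (cld_lT _)).ndT ((Tm.cld_num _).ndT (cld_lT _))

lemma le_two_pow8 (a : ℕ) : a ≤ 2 ^ (8 * a) := by
  have h1 : a < 2 ^ a := Nat.lt_two_pow_self
  exact h1.le.trans (Nat.pow_le_pow_right (by omega) (by omega))

lemma exists_S7 {s : St} (h1 : 4 ≤ s.ts.length) (h2 : 3 ≤ s.fs.length) :
    ∃ u : S7, u.st = s := by
  obtain ⟨ts, fs, k, th⟩ := s
  match ts, fs, h1, h2 with
  | t0 :: t1 :: t2 :: t3 :: ts, f0 :: f1 :: f2 :: fs, _, _ =>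
    exact ⟨⟨t0, t1, t2, t3, ts, f0, f1, f2, fs, k, th⟩, rfl⟩
  | [], _, h, _ => simp at h
  | [_], _, h, _ => simp at h
  | [_, _], _, h, _ => simp at h
  | [_, _, _], _, h, _ => simp at h
  | _ :: _ :: _ :: _ :: _, [], _, h => simp at h
  | _ :: _ :: _ :: _ :: _, [_], _, h => simp at h
  | _ :: _ :: _ :: _ :: _, [_, _], _, h => simp at h

variable (I : IfaceC RE)

/-- The main derivation. -/
lemma ev_ao : Ev fun X => ∀ (S : List Fm) (W : ℕ), X.Ok (lT S) → (∀ n, ¬ Prov S n .bot) →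
    2 ^ (8 * (W + 4)) ≤ X.N → ∀ (m : ℕ) (s : St), (∀ φ ∈ s.th, PrS S φ) →
    4 * m ≤ s.ts.length → 3 * m ≤ s.fs.length → s.pot + 8 * m ≤ W →
    X.D (fsz S + 3 * W + 60 + 27 * m) (I.A3 17 (lT S) (stT s) (nT m)) := by
  have r0 := ev_rule [neg (I.A2 12 (x 3) botP)]
    (I.A3 17 (x 4) (stP (x 0) (x 1) (x 2) (x 3)) (nT 0)) (fun e h => by
      rw [List.forall_mem_singleton, Fm.sat_neg, I.satC (by simp [Al, botP])] at h
      rw [I.satC (by simp [Al, stP])]
      simp only [botP, stP, val_ndT, Tm.val, Tm.val_num] at h ⊢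
      rintro ⟨a, b, k, th, h1, h2⟩
      simp only [nd_inj] at h1
      rw [← h1.2.2] at h2
      exact h h2)
  have r1 := ev_rule [] (I.A 18 (x 0) (x 1) (x 2) (nT 0)) (fun e h => by
    rw [I.satC (by simp [Al])]
    intro d hd
    simp only [Tm.val_num] at hd
    omega)
  have r2 := ev_rule [I.A 18 (x 0) (x 1) (x 2) (nT 25)] (I.A3 17 (x 0) (x 1) (.succ (x 2)))
    (fun e h => by
      rw [List.forall_mem_singleton, I.satC (by simp [Al])] at h
      rw [I.satC (by simp [Al])]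
      simp only [Tm.val, Tm.val_num] at h ⊢
      intro d s' hs
      exact h d hs.1 s' hs)
  have r3 : Ev fun X => ∀ d < 25, ∀ τ n, X.Sb τ →
      (∀ α ∈ [I.A 18 (x 11) srcP (x 12) (nT d), I.A3 17 (x 11) (dstP d) (x 12)],
        X.D n (α.sb τ)) → X.D (n + 1) ((I.A 18 (x 11) srcP (x 12) (nT (d + 1))).sb τ) := by
    refine Ev.all_lt 25 fun d hd => ?_
    refine ev_rule _ _ fun e h => ?_
    rw [List.forall_mem_cons, List.forall_mem_singleton,
      I.satC ⟨by simp [Al], alw_srcP, by simp [Al], by simp⟩,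
      I.satC ⟨by simp [Al], alw_dstP d, by simp [Al], by simp⟩] at h
    rw [I.satC ⟨by simp [Al], alw_srcP, by simp [Al], by simp⟩]
    simp only [Tm.val_num, Tm.val] at h ⊢
    refine aodR_succ h.1 fun s' hs => ?_
    rw [(stR_src hs).2]
    exact h.2
  have rneg : ∀ (d : ℕ) (γ : Fm), (∀ e : ℕ → ℕ, γ.Sat e → ¬ CondR (e 11) d e) →
      Ev fun X => ∀ τ n, X.Sb τ →
      (∀ α ∈ [I.A 18 (x 11) srcP (x 12) (nT d), γ],
        X.D n (α.sb τ)) → X.D (n + 1) ((I.A 18 (x 11) srcP (x 12) (nT (d + 1))).sb τ) := by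
    intro d γ hγ
    refine ev_rule _ _ fun e h => ?_
    rw [List.forall_mem_cons, List.forall_mem_singleton,
      I.satC ⟨by simp [Al], alw_srcP, by simp [Al], by simp⟩] at h
    rw [I.satC ⟨by simp [Al], alw_srcP, by simp [Al], by simp⟩]
    simp only [Tm.val_num, Tm.val] at h ⊢
    refine aodR_succ h.1 fun s' hs => ?_
    exact absurd (stR_src hs).1 (hγ e h.2)
  have n20a := rneg 20 (neg (I.A3 6 (x 6) (x 9) (x 0))) (fun e h h' => by
    rw [Fm.sat_neg, I.satC (by simp [Al])] at h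
    exact h h'.1)
  have n20b := rneg 20 (neg (I.A 5 (x 6) (x 9) (x 0) (x 5))) (fun e h h' => by
    rw [Fm.sat_neg, I.satC (by simp [Al])] at h
    exact h h'.2)
  have n21 := rneg 21 (I.A2 3 (x 6) (x 9)) (fun e h h' => by
    rw [I.satC (by simp [Al])] at h
    exact h' h)
  have n22 := rneg 22 (neg (I.A3 16 (x 10) (x 10) (x 5))) (fun e h h' => by
    rw [Fm.sat_neg, I.satC (by simp [Al])] at h
    exact h h')
  have n23 := rneg 23 (neg (I.A2 12 (x 10) (x 5))) (fun e h h' => by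
    rw [Fm.sat_neg, I.satC (by simp [Al])] at h
    exact h h')
  have n24 := rneg 24 (neg (I.A2 12 (x 11) (x 5))) (fun e h h' => by
    rw [Fm.sat_neg, I.satC (by simp [Al])] at h
    exact h h')
  refine ((((ev_one.and (r0.and r1)).and (r2.and r3)).and
    ((n20a.and n20b).and ((n21.and n22).and (n23.and n24)))).and
    (((ev_ffr I).and (ev_sbF I)).and ((ev_free I).and ((ev_mp I).and (ev_me I))))).mono ?_
  rintro X ⟨⟨⟨⟨h1, ⟨r0, r1⟩⟩, ⟨r2, r3⟩⟩, ⟨⟨n20a, n20b⟩, ⟨⟨n21, n22⟩, ⟨n23, n24⟩⟩⟩⟩,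
    ⟨⟨fff, fsb⟩, ⟨ffr, ⟨fmp, fme⟩⟩⟩⟩ S W hS hcon hN m
  induction m with
  | zero =>
    intro s hth _ _ hpot
    have hbd : (stT s).len ≤ X.N := (bd_stT s).trans
      ((Nat.pow_le_pow_right (by omega) (by omega)).trans hN)
    have hst : X.Ok (stT s) := ⟨cld_stT s, by omega⟩
    have hbot : X.Ok (fT .bot) := ⟨cld_fT _, by
      have h2 := bd_fT .bot
      have h3 : 2 ^ (8 * Fm.bot.len) ≤ 2 ^ (8 * (W + 4)) :=
        Nat.pow_le_pow_right (by omega) (by simp only [Fm.len]; omega)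
      exact h2.trans (h3.trans (hN.trans (by omega)))⟩
    have hnb : .bot ∉ s.th := by
      intro hb
      obtain ⟨n, hn⟩ := (hth _ hb).prov
      exact hcon n hn
    have f1 := (fme s.th .bot hst.r.r hbot).2 hnb
    have sb := X.sb5 hst.l.l hst.l.r hst.r.l hst.r.r hS
    have := r0 _ (fsz s.th + 17) sb (by
      rw [List.forall_mem_singleton]
      show X.D _ (neg ((I.A2 12 (x 3) botP).sb _))
      rw [I.sbA sb.cld (by simp [Al, botP])]
      exact Cx.D.mono h1 f1 (by simp only [Fm.len]; omega))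
    rw [I.sbA sb.cld (by simp [Al, stP])] at this
    refine Cx.D.mono h1 this ?_
    have : fsz s.th ≤ s.pot := by simp only [St.pot]; omega
    omega
  | succ m ih =>
    intro s hth ht hf hpot
    obtain ⟨u, hu⟩ := exists_S7 (s := s) (by omega) (by omega)
    subst hu
    have hbd : (stT u.st).len ≤ X.N := (bd_stT u.st).trans
      ((Nat.pow_le_pow_right (by omega) (by omega)).trans hN)
    have hst : X.Ok (stT u.st) := ⟨cld_stT _, by omega⟩
    have hmN : m ≤ X.N := by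
      have := le_two_pow8 (W + 4)
      omega
    have sb : X.Sb (u.tau (lT S) (nT m)) := by
      refine X.sbL ?_
      simp only [List.forall_mem_cons]
      exact ⟨hst.l.l.l, hst.l.l.r.l, hst.l.l.r.r.l, hst.l.l.r.r.r.l, hst.l.l.r.r.r.r,
        hst.l.r.l, hst.l.r.r.l, hst.l.r.r.r.l, hst.l.r.r.r.r, hst.r.l, hst.r.r, hS,
        X.okN hmN, by simp⟩
    have sz0 : u.f0.len + u.f1.len + u.t0.len + fsz u.th ≤ W := by
      have : u.f0.len + u.f1.len + u.t0.len + fsz u.th ≤ u.st.pot := by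
        simp only [S7.st, St.pot, tsz, fsz]; omega
      omega
    set D0 := fsz S + 3 * W + 60 + 27 * m with hD0
    have eA : ∀ d, (I.A 18 (x 11) srcP (x 12) (nT d)).sb (u.tau (lT S) (nT m)) =
        I.A 18 (lT S) (stT u.st) (nT m) (nT d) := by
      intro d
      rw [I.sbA sb.cld ⟨by simp [Al], alw_srcP, by simp [Al], by simp⟩, u.src_sb, Tm.sb_num]
      rfl
    have eB : ∀ d < 25, (I.A3 17 (x 11) (dstP d) (x 12)).sb (u.tau (lT S) (nT m)) =
        I.A3 17 (lT S) (stT (u.nx d)) (nT m) := by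
      intro d hd
      rw [I.sbA sb.cld ⟨by simp [Al], alw_dstP d, by simp [Al], by simp⟩, u.dst_sb _ _ hd]
      rfl
    have key : ∀ d ≤ 25, X.D (D0 + d) (I.A 18 (lT S) (stT u.st) (nT m) (nT d)) := by
      intro d
      induction d with
      | zero =>
        intro _
        have sb' := X.sb3 hS hst (X.okN hmN)
        have := r1 _ 0 sb' (by simp)
        rw [I.sbA sb'.cld (by simp [Al])] at this
        exact Cx.D.mono h1 this (by omega)
      | succ d ih' =>
        intro hd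
        have ih' := ih' (by omega)
        rw [← eA d] at ih'
        rw [← eA (d + 1)]
        show X.D (D0 + d + 1) _
        by_cases hc : u.cond S d
        · -- the condition holds
          have hn := ih (u.nx d) (S7.nx_th (by omega) hc hth)
            (by have := (u.nx_len (d := d) (by omega)).1
                have h4 : u.st.ts.length = u.ts.length + 4 := by simp [S7.st]
                omega)
            (by have := (u.nx_len (d := d) (by omega)).2
                have h4 : u.st.fs.length = u.fs.length + 3 := by simp [S7.st]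
                omega)
            (by have := u.nx_pot (d := d) (by omega); omega)
          exact r3 d (by omega) _ _ sb (by
            rw [List.forall_mem_cons, List.forall_mem_singleton, eB d (by omega)]
            exact ⟨ih', Cx.D.mono h1 hn (by omega)⟩)
        · -- the condition fails
          have hu0 : X.Ok (fT u.f0) := hst.l.r.l
          have hu1 : X.Ok (fT u.f1) := hst.l.r.r.l
          have hut : X.Ok (tT u.t0) := hst.l.l.l
          have huk : u.k ≤ X.N := hst.r.l.n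
          have hth' : X.Ok (lT u.th) := hst.r.r
          have hd' : d < 25 := by omega
          have hlt : d = 20 ∨ d = 21 ∨ d = 22 ∨ d = 23 ∨ d = 24 := by
            by_contra hne
            exact hc (u.cond_of_lt S (by omega))
          rcases hlt with rfl | rfl | rfl | rfl | rfl
          · have hc' : ¬ (u.f1.FreeFor u.k u.t0 ∧ u.f0 = u.f1.sub u.k u.t0) := hc
            by_cases hff : u.f1.FreeFor u.k u.t0
            · have hs : ¬ u.f0 = u.f1.sub u.k u.t0 := fun h => hc' ⟨hff, h⟩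
              have f1 := (fsb u.f1 u.k u.t0 u.f0 hu1 huk hut hu0).2 hs
              exact n20b _ _ sb (by
                rw [List.forall_mem_cons, List.forall_mem_singleton]
                refine ⟨ih', ?_⟩
                show X.D _ (neg ((I.A 5 (x 6) (x 9) (x 0) (x 5)).sb _))
                rw [I.sbA sb.cld (by simp [Al])]
                exact Cx.D.mono h1 f1 (by omega))
            · have f1 := (fff u.f1 u.k u.t0 hu1 huk hut).2 hff
              exact n20a _ _ sb (by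
                rw [List.forall_mem_cons, List.forall_mem_singleton]
                refine ⟨ih', ?_⟩
                show X.D _ (neg ((I.A3 6 (x 6) (x 9) (x 0)).sb _))
                rw [I.sbA sb.cld (by simp [Al])]
                exact Cx.D.mono h1 f1 (by omega))
          · have hc' : ¬ ¬ u.f1.Free u.k := hc
            have f1 := (ffr u.f1 u.k hu1 huk).1 (not_not.mp hc')
            exact n21 _ _ sb (by
              rw [List.forall_mem_cons, List.forall_mem_singleton]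
              refine ⟨ih', ?_⟩
              rw [I.sbA sb.cld (by simp [Al])]
              exact Cx.D.mono h1 f1 (by omega))
          · have hc' : ¬ MpL u.th u.th u.f0 := hc
            have f1 := (fmp u.th u.th u.f0 hth' hth' hu0).2 hc'
            exact n22 _ _ sb (by
              rw [List.forall_mem_cons, List.forall_mem_singleton]
              refine ⟨ih', ?_⟩
              show X.D _ (neg ((I.A3 16 (x 10) (x 10) (x 5)).sb _))
              rw [I.sbA sb.cld (by simp [Al])]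
              exact Cx.D.mono h1 f1 (by omega))
          · have hc' : ¬ u.f0 ∈ u.th := hc
            have f1 := (fme u.th u.f0 hth' hu0).2 hc'
            exact n23 _ _ sb (by
              rw [List.forall_mem_cons, List.forall_mem_singleton]
              refine ⟨ih', ?_⟩
              show X.D _ (neg ((I.A2 12 (x 10) (x 5)).sb _))
              rw [I.sbA sb.cld (by simp [Al])]
              exact Cx.D.mono h1 f1 (by omega))
          · have hc' : ¬ u.f0 ∈ S := hc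
            have f1 := (fme S u.f0 hS hu0).2 hc'
            exact n24 _ _ sb (by
              rw [List.forall_mem_cons, List.forall_mem_singleton]
              refine ⟨ih', ?_⟩
              show X.D _ (neg ((I.A2 12 (x 11) (x 5)).sb _))
              rw [I.sbA sb.cld (by simp [Al])]
              exact Cx.D.mono h1 f1 (by omega))
    have sb' := X.sb3 hS hst (X.okN hmN)
    have := r2 _ (D0 + 25) sb' (by
      rw [List.forall_mem_singleton, I.sbA sb'.cld (by simp [Al])]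
      exact key 25 le_rfl)
    rw [I.sbA sb'.cld (by simp [Al])] at this
    exact Cx.D.mono h1 this (by omega)

end Helper31Con

end

section

/-!
# The machine finds every short refutation
-/

namespace Helper31Con

open Function Filter Fm

/-- A state, as a number. -/
def stN (ts fs k th : ℕ) : ℕ := nd (nd ts fs) (nd k th)

/-- At least four elements. -/
def G4 (ts : ℕ) : Prop := ∃ a b c d r, ts = nd a (nd b (nd c (nd d r)))
/-- At least three elements. -/
def G3 (fs : ℕ) : Prop := ∃ a b c r, fs = nd a (nd b (nd c r))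

lemma G4.cons {ts : ℕ} (h : G4 ts) (t : ℕ) : G4 (nd t ts) := by
  obtain ⟨a, b, c, d, r, rfl⟩ := h; exact ⟨t, a, b, c, nd d r, rfl⟩
lemma G3.cons {fs : ℕ} (h : G3 fs) (t : ℕ) : G3 (nd t fs) := by
  obtain ⟨a, b, c, r, rfl⟩ := h; exact ⟨t, a, b, nd c r, rfl⟩

lemma stR_mk {z d : ℕ} (v : ℕ → ℕ) (hd : d < 25) (hc : CondR z d v) :
    StR z d (srcP.val v) ((dstP d).val v) := ⟨hd, v, rfl, hc, rfl⟩

/-- `m` steps of the machine. -/
inductive Rch (z : ℕ) : ℕ → ℕ → ℕ → Prop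
  | nil (s : ℕ) : Rch z 0 s s
  | cons {d s s₁ s' m : ℕ} : StR z d s s₁ → Rch z m s₁ s' → Rch z (m + 1) s s'

lemma Rch.trans {z m m' s s' s'' : ℕ} (h : Rch z m s s') (h' : Rch z m' s' s'') :
    Rch z (m + m') s s'' := by
  induction h with
  | nil s => simpa using h'
  | cons h1 _ ih =>
    have := Rch.cons h1 (ih h')
    rwa [show ∀ a : ℕ, a + m' + 1 = a + 1 + m' from fun a => by omega] at this

lemma Rch.one {z d s s' : ℕ} (h : StR z d s s') : Rch z 1 s s' := Rch.cons h (Rch.nil _)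

lemma Rch.not_bad {z m s s' : ℕ} (h : Rch z m s s') (h' : AOR z m s) : ¬ BadR s' := by
  induction h with
  | nil s => exact h'
  | cons h1 _ ih => exact ih (h' _ _ h1)

variable {z ts fs k th : ℕ}

lemma s_prime   (h4 : G4 ts) (h3 : G3 fs) :
    StR z 0 (stN ts fs k th) (stN ts fs (k + 1) th) := by
  obtain ⟨a, b, c, d, r, rfl⟩ := h4
  obtain ⟨a', b', c', r', rfl⟩ := h3
  have h := stR_mk (z := z) (d := 0) (as [a, b, c, d, r, a', b', c', r', k, th]) (by omega) trivial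
  simp only [srcP, dstP, stP, tsP, ts1P, ts2P, fsP, fs1P, fs2P, botP, tI, tA, tE, tL, val_ndT,
    Tm.val, Tm.val_num] at h
  exact h

lemma s_var   (h4 : G4 ts) (h3 : G3 fs) :
    StR z 1 (stN ts fs k th) (stN (nd (nd 0 k) ts) fs 0 th) := by
  obtain ⟨a, b, c, d, r, rfl⟩ := h4
  obtain ⟨a', b', c', r', rfl⟩ := h3
  have h := stR_mk (z := z) (d := 1) (as [a, b, c, d, r, a', b', c', r', k, th]) (by omega) trivial
  simp only [srcP, dstP, stP, tsP, ts1P, ts2P, fsP, fs1P, fs2P, botP, tI, tA, tE, tL, val_ndT,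
    Tm.val, Tm.val_num] at h
  exact h

lemma s_zero   (h4 : G4 ts) (h3 : G3 fs) :
    StR z 2 (stN ts fs k th) (stN (nd (nd 1 0) ts) fs k th) := by
  obtain ⟨a, b, c, d, r, rfl⟩ := h4
  obtain ⟨a', b', c', r', rfl⟩ := h3
  have h := stR_mk (z := z) (d := 2) (as [a, b, c, d, r, a', b', c', r', k, th]) (by omega) trivial
  simp only [srcP, dstP, stP, tsP, ts1P, ts2P, fsP, fs1P, fs2P, botP, tI, tA, tE, tL, val_ndT,
    Tm.val, Tm.val_num] at h
  exact h

lemma s_succ (t : ℕ)  (h4 : G4 ts) (h3 : G3 fs) :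
    StR z 3 (stN (nd t ts) fs k th) (stN (nd (nd 2 t) ts) fs k th) := by
  obtain ⟨a, b, c, d, r, rfl⟩ := h4
  obtain ⟨a', b', c', r', rfl⟩ := h3
  have h := stR_mk (z := z) (d := 3) (as [t, a, b, c, nd d r, a', b', c', r', k, th]) (by omega) trivial
  simp only [srcP, dstP, stP, tsP, ts1P, ts2P, fsP, fs1P, fs2P, botP, tI, tA, tE, tL, val_ndT,
    Tm.val, Tm.val_num] at h
  exact h

lemma s_add (s : ℕ) (t : ℕ)  (h4 : G4 ts) (h3 : G3 fs) :
    StR z 4 (stN (nd s (nd t ts)) fs k th) (stN (nd (nd 3 (nd t s)) ts) fs k th) := by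
  obtain ⟨a, b, c, d, r, rfl⟩ := h4
  obtain ⟨a', b', c', r', rfl⟩ := h3
  have h := stR_mk (z := z) (d := 4) (as [s, t, a, b, nd c (nd d r), a', b', c', r', k, th]) (by omega) trivial
  simp only [srcP, dstP, stP, tsP, ts1P, ts2P, fsP, fs1P, fs2P, botP, tI, tA, tE, tL, val_ndT,
    Tm.val, Tm.val_num] at h
  exact h

lemma s_mul (s : ℕ) (t : ℕ)  (h4 : G4 ts) (h3 : G3 fs) :
    StR z 5 (stN (nd s (nd t ts)) fs k th) (stN (nd (nd 4 (nd t s)) ts) fs k th) := by
  obtain ⟨a, b, c, d, r, rfl⟩ := h4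
  obtain ⟨a', b', c', r', rfl⟩ := h3
  have h := stR_mk (z := z) (d := 5) (as [s, t, a, b, nd c (nd d r), a', b', c', r', k, th]) (by omega) trivial
  simp only [srcP, dstP, stP, tsP, ts1P, ts2P, fsP, fs1P, fs2P, botP, tI, tA, tE, tL, val_ndT,
    Tm.val, Tm.val_num] at h
  exact h

lemma s_bot   (h4 : G4 ts) (h3 : G3 fs) :
    StR z 6 (stN ts fs k th) (stN ts (nd (nd 5 0) fs) k th) := by
  obtain ⟨a, b, c, d, r, rfl⟩ := h4
  obtain ⟨a', b', c', r', rfl⟩ := h3
  have h := stR_mk (z := z) (d := 6) (as [a, b, c, d, r, a', b', c', r', k, th]) (by omega) trivial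
  simp only [srcP, dstP, stP, tsP, ts1P, ts2P, fsP, fs1P, fs2P, botP, tI, tA, tE, tL, val_ndT,
    Tm.val, Tm.val_num] at h
  exact h

lemma s_eq (s : ℕ) (t : ℕ)  (h4 : G4 ts) (h3 : G3 fs) :
    StR z 7 (stN (nd s (nd t ts)) fs k th) (stN ts (nd (nd 6 (nd t s)) fs) k th) := by
  obtain ⟨a, b, c, d, r, rfl⟩ := h4
  obtain ⟨a', b', c', r', rfl⟩ := h3
  have h := stR_mk (z := z) (d := 7) (as [s, t, a, b, nd c (nd d r), a', b', c', r', k, th]) (by omega) trivial
  simp only [srcP, dstP, stP, tsP, ts1P, ts2P, fsP, fs1P, fs2P, botP, tI, tA, tE, tL, val_ndT,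
    Tm.val, Tm.val_num] at h
  exact h

lemma s_le (s : ℕ) (t : ℕ)  (h4 : G4 ts) (h3 : G3 fs) :
    StR z 8 (stN (nd s (nd t ts)) fs k th) (stN ts (nd (nd 7 (nd t s)) fs) k th) := by
  obtain ⟨a, b, c, d, r, rfl⟩ := h4
  obtain ⟨a', b', c', r', rfl⟩ := h3
  have h := stR_mk (z := z) (d := 8) (as [s, t, a, b, nd c (nd d r), a', b', c', r', k, th]) (by omega) trivial
  simp only [srcP, dstP, stP, tsP, ts1P, ts2P, fsP, fs1P, fs2P, botP, tI, tA, tE, tL, val_ndT,
    Tm.val, Tm.val_num] at h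
  exact h

lemma s_imp (g : ℕ) (f : ℕ)  (h4 : G4 ts) (h3 : G3 fs) :
    StR z 9 (stN ts (nd g (nd f fs)) k th) (stN ts (nd (nd 8 (nd f g)) fs) k th) := by
  obtain ⟨a, b, c, d, r, rfl⟩ := h4
  obtain ⟨a', b', c', r', rfl⟩ := h3
  have h := stR_mk (z := z) (d := 9) (as [a, b, c, d, r, g, f, a', nd b' (nd c' r'), k, th]) (by omega) trivial
  simp only [srcP, dstP, stP, tsP, ts1P, ts2P, fsP, fs1P, fs2P, botP, tI, tA, tE, tL, val_ndT,
    Tm.val, Tm.val_num] at h
  exact h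

lemma s_all (f : ℕ)  (h4 : G4 ts) (h3 : G3 fs) :
    StR z 10 (stN ts (nd f fs) k th) (stN ts (nd (nd 9 (nd k f)) fs) 0 th) := by
  obtain ⟨a, b, c, d, r, rfl⟩ := h4
  obtain ⟨a', b', c', r', rfl⟩ := h3
  have h := stR_mk (z := z) (d := 10) (as [a, b, c, d, r, f, a', b', nd c' r', k, th]) (by omega) trivial
  simp only [srcP, dstP, stP, tsP, ts1P, ts2P, fsP, fs1P, fs2P, botP, tI, tA, tE, tL, val_ndT,
    Tm.val, Tm.val_num] at h
  exact h

lemma s_K (g : ℕ) (f : ℕ)  (h4 : G4 ts) (h3 : G3 fs) :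
    StR z 11 (stN ts (nd g (nd f fs)) k th) (stN ts fs k (nd (nd 8 (nd f (nd 8 (nd g f)))) th)) := by
  obtain ⟨a, b, c, d, r, rfl⟩ := h4
  obtain ⟨a', b', c', r', rfl⟩ := h3
  have h := stR_mk (z := z) (d := 11) (as [a, b, c, d, r, g, f, a', nd b' (nd c' r'), k, th]) (by omega) trivial
  simp only [srcP, dstP, stP, tsP, ts1P, ts2P, fsP, fs1P, fs2P, botP, tI, tA, tE, tL, val_ndT,
    Tm.val, Tm.val_num] at h
  exact h

lemma s_S (h : ℕ) (g : ℕ) (f : ℕ)  (h4 : G4 ts) (h3 : G3 fs) :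
    StR z 12 (stN ts (nd h (nd g (nd f fs))) k th) (stN ts fs k (nd (nd 8 (nd (nd 8 (nd f (nd 8 (nd g h)))) (nd 8 (nd (nd 8 (nd f g)) (nd 8 (nd f h)))))) th)) := by
  obtain ⟨a, b, c, d, r, rfl⟩ := h4
  obtain ⟨a', b', c', r', rfl⟩ := h3
  have h := stR_mk (z := z) (d := 12) (as [a, b, c, d, r, h, g, f, nd a' (nd b' (nd c' r')), k, th]) (by omega) trivial
  simp only [srcP, dstP, stP, tsP, ts1P, ts2P, fsP, fs1P, fs2P, botP, tI, tA, tE, tL, val_ndT,
    Tm.val, Tm.val_num] at h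
  exact h

lemma s_dne (f : ℕ)  (h4 : G4 ts) (h3 : G3 fs) :
    StR z 13 (stN ts (nd f fs) k th) (stN ts fs k (nd (nd 8 (nd (nd 8 (nd (nd 8 (nd f (nd 5 0))) (nd 5 0))) f)) th)) := by
  obtain ⟨a, b, c, d, r, rfl⟩ := h4
  obtain ⟨a', b', c', r', rfl⟩ := h3
  have h := stR_mk (z := z) (d := 13) (as [a, b, c, d, r, f, a', b', nd c' r', k, th]) (by omega) trivial
  simp only [srcP, dstP, stP, tsP, ts1P, ts2P, fsP, fs1P, fs2P, botP, tI, tA, tE, tL, val_ndT,
    Tm.val, Tm.val_num] at h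
  exact h

lemma s_refl (t : ℕ)  (h4 : G4 ts) (h3 : G3 fs) :
    StR z 14 (stN (nd t ts) fs k th) (stN ts fs k (nd (nd 6 (nd t t)) th)) := by
  obtain ⟨a, b, c, d, r, rfl⟩ := h4
  obtain ⟨a', b', c', r', rfl⟩ := h3
  have h := stR_mk (z := z) (d := 14) (as [t, a, b, c, nd d r, a', b', c', r', k, th]) (by omega) trivial
  simp only [srcP, dstP, stP, tsP, ts1P, ts2P, fsP, fs1P, fs2P, botP, tI, tA, tE, tL, val_ndT,
    Tm.val, Tm.val_num] at h
  exact h

lemma s_cS (s : ℕ) (t : ℕ)  (h4 : G4 ts) (h3 : G3 fs) :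
    StR z 15 (stN (nd s (nd t ts)) fs k th) (stN ts fs k (nd (nd 8 (nd (nd 6 (nd t s)) (nd 6 (nd (nd 2 t) (nd 2 s))))) th)) := by
  obtain ⟨a, b, c, d, r, rfl⟩ := h4
  obtain ⟨a', b', c', r', rfl⟩ := h3
  have h := stR_mk (z := z) (d := 15) (as [s, t, a, b, nd c (nd d r), a', b', c', r', k, th]) (by omega) trivial
  simp only [srcP, dstP, stP, tsP, ts1P, ts2P, fsP, fs1P, fs2P, botP, tI, tA, tE, tL, val_ndT,
    Tm.val, Tm.val_num] at h
  exact h

lemma s_cA (s' : ℕ) (t' : ℕ) (s : ℕ) (t : ℕ)  (h4 : G4 ts) (h3 : G3 fs) :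
    StR z 16 (stN (nd s' (nd t' (nd s (nd t ts)))) fs k th) (stN ts fs k (nd (nd 8 (nd (nd 6 (nd t s)) (nd 8 (nd (nd 6 (nd t' s')) (nd 6 (nd (nd 3 (nd t t')) (nd 3 (nd s s')))))))) th)) := by
  obtain ⟨a, b, c, d, r, rfl⟩ := h4
  obtain ⟨a', b', c', r', rfl⟩ := h3
  have h := stR_mk (z := z) (d := 16) (as [s', t', s, t, nd a (nd b (nd c (nd d r))), a', b', c', r', k, th]) (by omega) trivial
  simp only [srcP, dstP, stP, tsP, ts1P, ts2P, fsP, fs1P, fs2P, botP, tI, tA, tE, tL, val_ndT,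
    Tm.val, Tm.val_num] at h
  exact h

lemma s_cM (s' : ℕ) (t' : ℕ) (s : ℕ) (t : ℕ)  (h4 : G4 ts) (h3 : G3 fs) :
    StR z 17 (stN (nd s' (nd t' (nd s (nd t ts)))) fs k th) (stN ts fs k (nd (nd 8 (nd (nd 6 (nd t s)) (nd 8 (nd (nd 6 (nd t' s')) (nd 6 (nd (nd 4 (nd t t')) (nd 4 (nd s s')))))))) th)) := by
  obtain ⟨a, b, c, d, r, rfl⟩ := h4
  obtain ⟨a', b', c', r', rfl⟩ := h3
  have h := stR_mk (z := z) (d := 17) (as [s', t', s, t, nd a (nd b (nd c (nd d r))), a', b', c', r', k, th]) (by omega) trivial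
  simp only [srcP, dstP, stP, tsP, ts1P, ts2P, fsP, fs1P, fs2P, botP, tI, tA, tE, tL, val_ndT,
    Tm.val, Tm.val_num] at h
  exact h

lemma s_cE (s' : ℕ) (t' : ℕ) (s : ℕ) (t : ℕ)  (h4 : G4 ts) (h3 : G3 fs) :
    StR z 18 (stN (nd s' (nd t' (nd s (nd t ts)))) fs k th) (stN ts fs k (nd (nd 8 (nd (nd 6 (nd t s)) (nd 8 (nd (nd 6 (nd t' s')) (nd 8 (nd (nd 6 (nd t t')) (nd 6 (nd s s')))))))) th)) := by
  obtain ⟨a, b, c, d, r, rfl⟩ := h4
  obtain ⟨a', b', c', r', rfl⟩ := h3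
  have h := stR_mk (z := z) (d := 18) (as [s', t', s, t, nd a (nd b (nd c (nd d r))), a', b', c', r', k, th]) (by omega) trivial
  simp only [srcP, dstP, stP, tsP, ts1P, ts2P, fsP, fs1P, fs2P, botP, tI, tA, tE, tL, val_ndT,
    Tm.val, Tm.val_num] at h
  exact h

lemma s_cL (s' : ℕ) (t' : ℕ) (s : ℕ) (t : ℕ)  (h4 : G4 ts) (h3 : G3 fs) :
    StR z 19 (stN (nd s' (nd t' (nd s (nd t ts)))) fs k th) (stN ts fs k (nd (nd 8 (nd (nd 6 (nd t s)) (nd 8 (nd (nd 6 (nd t' s')) (nd 8 (nd (nd 7 (nd t t')) (nd 7 (nd s s')))))))) th)) := by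
  obtain ⟨a, b, c, d, r, rfl⟩ := h4
  obtain ⟨a', b', c', r', rfl⟩ := h3
  have h := stR_mk (z := z) (d := 19) (as [s', t', s, t, nd a (nd b (nd c (nd d r))), a', b', c', r', k, th]) (by omega) trivial
  simp only [srcP, dstP, stP, tsP, ts1P, ts2P, fsP, fs1P, fs2P, botP, tI, tA, tE, tL, val_ndT,
    Tm.val, Tm.val_num] at h
  exact h

lemma s_inst (t : ℕ) (g : ℕ) (f : ℕ)  (h4 : G4 ts) (h3 : G3 fs) (hf : FFR f k t) (hs : SbF f k t g):
    StR z 20 (stN (nd t ts) (nd g (nd f fs)) k th) (stN ts fs 0 (nd (nd 8 (nd (nd 9 (nd k f)) g)) th)) := by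
  obtain ⟨a, b, c, d, r, rfl⟩ := h4
  obtain ⟨a', b', c', r', rfl⟩ := h3
  have h := stR_mk (z := z) (d := 20) (as [t, a, b, c, nd d r, g, f, a', nd b' (nd c' r'), k, th]) (by omega) ⟨hf, hs⟩
  simp only [srcP, dstP, stP, tsP, ts1P, ts2P, fsP, fs1P, fs2P, botP, tI, tA, tE, tL, val_ndT,
    Tm.val, Tm.val_num] at h
  exact h

lemma s_dist (g : ℕ) (f : ℕ)  (h4 : G4 ts) (h3 : G3 fs) (hf : ¬ FreeR f k):
    StR z 21 (stN ts (nd g (nd f fs)) k th) (stN ts fs 0 (nd (nd 8 (nd (nd 9 (nd k (nd 8 (nd f g)))) (nd 8 (nd f (nd 9 (nd k g)))))) th)) := by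
  obtain ⟨a, b, c, d, r, rfl⟩ := h4
  obtain ⟨a', b', c', r', rfl⟩ := h3
  have h := stR_mk (z := z) (d := 21) (as [a, b, c, d, r, g, f, a', nd b' (nd c' r'), k, th]) (by omega) hf
  simp only [srcP, dstP, stP, tsP, ts1P, ts2P, fsP, fs1P, fs2P, botP, tI, tA, tE, tL, val_ndT,
    Tm.val, Tm.val_num] at h
  exact h

lemma s_mp (f : ℕ)  (h4 : G4 ts) (h3 : G3 fs) (hf : MpR th th f):
    StR z 22 (stN ts (nd f fs) k th) (stN ts fs k (nd f th)) := by
  obtain ⟨a, b, c, d, r, rfl⟩ := h4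
  obtain ⟨a', b', c', r', rfl⟩ := h3
  have h := stR_mk (z := z) (d := 22) (as [a, b, c, d, r, f, a', b', nd c' r', k, th]) (by omega) hf
  simp only [srcP, dstP, stP, tsP, ts1P, ts2P, fsP, fs1P, fs2P, botP, tI, tA, tE, tL, val_ndT,
    Tm.val, Tm.val_num] at h
  exact h

lemma s_gen (f : ℕ)  (h4 : G4 ts) (h3 : G3 fs) (hf : MeR th f):
    StR z 23 (stN ts (nd f fs) k th) (stN ts fs 0 (nd (nd 9 (nd k f)) th)) := by
  obtain ⟨a, b, c, d, r, rfl⟩ := h4
  obtain ⟨a', b', c', r', rfl⟩ := h3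
  have h := stR_mk (z := z) (d := 23) (as [a, b, c, d, r, f, a', b', nd c' r', k, th]) (by omega) hf
  simp only [srcP, dstP, stP, tsP, ts1P, ts2P, fsP, fs1P, fs2P, botP, tI, tA, tE, tL, val_ndT,
    Tm.val, Tm.val_num] at h
  exact h

lemma s_tax (f : ℕ)  (h4 : G4 ts) (h3 : G3 fs) (hf : MeR z f):
    StR z 24 (stN ts (nd f fs) k th) (stN ts fs k (nd f th)) := by
  obtain ⟨a, b, c, d, r, rfl⟩ := h4
  obtain ⟨a', b', c', r', rfl⟩ := h3
  have h := stR_mk (z := z) (d := 24) (as [a, b, c, d, r, f, a', b', nd c' r', k, th]) (by omega) hf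
  simp only [srcP, dstP, stP, tsP, ts1P, ts2P, fsP, fs1P, fs2P, botP, tI, tA, tE, tL, val_ndT,
    Tm.val, Tm.val_num] at h
  exact h


/-! ### Building expressions -/

lemma reach_k (h4 : G4 ts) (h3 : G3 fs) (k : ℕ) : Rch z k (stN ts fs 0 th) (stN ts fs k th) := by
  induction k with
  | zero => exact Rch.nil _
  | succ k ih => exact ih.trans (Rch.one (s_prime h4 h3))

lemma reach_T (t : Tm) : ∀ {ts fs : ℕ}, G4 ts → G3 fs →
    Rch z t.len (stN ts fs 0 th) (stN (nd (tc t) ts) fs 0 th) := by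
  induction t with
  | var k => intro ts fs h4 h3; exact (reach_k h4 h3 k).trans (Rch.one (s_var h4 h3))
  | zero => intro ts fs h4 h3; exact Rch.one (s_zero h4 h3)
  | succ t ih => intro ts fs h4 h3; exact (ih h4 h3).trans (Rch.one (s_succ _ h4 h3))
  | add t s iht ihs =>
    intro ts fs h4 h3
    exact ((iht h4 h3).trans (ihs (h4.cons _) h3)).trans (Rch.one (s_add _ _ h4 h3))
  | mul t s iht ihs =>
    intro ts fs h4 h3
    exact ((iht h4 h3).trans (ihs (h4.cons _) h3)).trans (Rch.one (s_mul _ _ h4 h3))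

lemma reach_F (φ : Fm) : ∀ {ts fs : ℕ}, G4 ts → G3 fs →
    ∃ n ≤ φ.len, Rch z n (stN ts fs 0 th) (stN ts (nd (fc φ) fs) 0 th) := by
  induction φ with
  | bot => intro ts fs h4 h3; exact ⟨1, by simp [Fm.len], Rch.one (s_bot h4 h3)⟩
  | eq t s =>
    intro ts fs h4 h3
    exact ⟨t.len + s.len + 1, by simp [Fm.len], ((reach_T t h4 h3).trans
      (reach_T s (h4.cons _) h3)).trans (Rch.one (s_eq _ _ h4 h3))⟩
  | le t s =>
    intro ts fs h4 h3
    exact ⟨t.len + s.len + 1, by simp [Fm.len], ((reach_T t h4 h3).trans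
      (reach_T s (h4.cons _) h3)).trans (Rch.one (s_le _ _ h4 h3))⟩
  | imp φ ψ ih1 ih2 =>
    intro ts fs h4 h3
    obtain ⟨n, hn, r⟩ := ih1 h4 h3
    obtain ⟨n', hn', r'⟩ := ih2 h4 (h3.cons (fc φ))
    exact ⟨n + n' + 1, by simp only [Fm.len]; omega,
      (r.trans r').trans (Rch.one (s_imp _ _ h4 h3))⟩
  | all k φ ih =>
    intro ts fs h4 h3
    obtain ⟨n, hn, r⟩ := ih h4 h3
    exact ⟨n + k + 1, by simp only [Fm.len]; omega,
      (r.trans (reach_k h4 (h3.cons _) k)).trans (Rch.one (s_all _ h4 h3))⟩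

lemma len_le_sub_T {t : Tm} {k : ℕ} {r : Tm} (h : t.Has k) : r.len ≤ (t.sub k r).len := by
  induction t with
  | var j => simp only [Tm.Has] at h; simp [Tm.sub, h]
  | zero => exact absurd h (by simp [Tm.Has])
  | succ t ih => have := ih h; simp only [Tm.sub, Tm.len]; omega
  | add t s iht ihs =>
    rcases h with h | h
    · have := iht h; simp only [Tm.sub, Tm.len]; omega
    · have := ihs h; simp only [Tm.sub, Tm.len]; omega
  | mul t s iht ihs =>
    rcases h with h | h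
    · have := iht h; simp only [Tm.sub, Tm.len]; omega
    · have := ihs h; simp only [Tm.sub, Tm.len]; omega

lemma len_le_sub_F {φ : Fm} {k : ℕ} {r : Tm} (h : φ.Free k) : r.len ≤ (φ.sub k r).len := by
  induction φ with
  | bot => exact absurd h (by simp [Fm.Free])
  | eq t s =>
    rcases h with h | h
    · have := len_le_sub_T (r := r) h; simp only [Fm.sub, Fm.len]; omega
    · have := len_le_sub_T (r := r) h; simp only [Fm.sub, Fm.len]; omega
  | le t s =>
    rcases h with h | h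
    · have := len_le_sub_T (r := r) h; simp only [Fm.sub, Fm.len]; omega
    · have := len_le_sub_T (r := r) h; simp only [Fm.sub, Fm.len]; omega
  | imp φ ψ ih1 ih2 =>
    rcases h with h | h
    · have := ih1 h; simp only [Fm.sub, Fm.len]; omega
    · have := ih2 h; simp only [Fm.sub, Fm.len]; omega
  | all j φ ih =>
    have hj : j ≠ k := h.1
    have := ih h.2
    simp only [Fm.sub, if_neg hj, Fm.len]; omega

lemma reach_ax {φ : Fm} (h : Ax φ) (h4 : G4 ts) (h3 : G3 fs) :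
    ∃ n ≤ 2 * φ.len, Rch z n (stN ts fs 0 th) (stN ts fs 0 (nd (fc φ) th)) := by
  cases h with
  | k φ ψ =>
    obtain ⟨n, hn, r⟩ := reach_F (z := z) (th := th) φ h4 h3
    obtain ⟨n', hn', r'⟩ := reach_F (z := z) (th := th) ψ h4 (h3.cons (fc φ))
    exact ⟨n + n' + 1, by simp only [Fm.len]; omega,
      (r.trans r').trans (Rch.one (s_K _ _ h4 h3))⟩
  | s φ ψ χ =>
    obtain ⟨n, hn, r⟩ := reach_F (z := z) (th := th) φ h4 h3
    obtain ⟨n', hn', r'⟩ := reach_F (z := z) (th := th) ψ h4 (h3.cons (fc φ))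
    obtain ⟨n'', hn'', r''⟩ := reach_F (z := z) (th := th) χ h4 ((h3.cons (fc φ)).cons (fc ψ))
    exact ⟨n + n' + n'' + 1, by simp only [Fm.len]; omega,
      ((r.trans r').trans r'').trans (Rch.one (s_S _ _ _ h4 h3))⟩
  | dne φ =>
    obtain ⟨n, hn, r⟩ := reach_F (z := z) (th := th) φ h4 h3
    exact ⟨n + 1, by simp only [Fm.len]; omega, r.trans (Rch.one (s_dne _ h4 h3))⟩
  | inst j φ t hf =>
    obtain ⟨t', h1, h2, h5⟩ : ∃ t' : Tm, φ.FreeFor j t' ∧ φ.sub j t' = φ.sub j t ∧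
        t'.len ≤ (φ.sub j t).len := by
      by_cases hfr : φ.Free j
      · exact ⟨t, hf, rfl, len_le_sub_F hfr⟩
      · refine ⟨.zero, Fm.freeFor_of_closed Tm.cld_zero φ, ?_, ?_⟩
        · rw [Fm.sub_of_not_free hfr, Fm.sub_of_not_free hfr]
        · have := (φ.sub j t).len_pos
          simpa [Tm.len] using this
    obtain ⟨n, hn, r⟩ := reach_F (z := z) (th := th) φ h4 h3
    obtain ⟨n', hn', r'⟩ := reach_F (z := z) (th := th) (φ.sub j t) h4 (h3.cons (fc φ))
    have r'' := reach_T (z := z) (th := th) t' h4 ((h3.cons (fc φ)).cons (fc (φ.sub j t)))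
    have r3 := reach_k (z := z) (th := th) (h4.cons (tc t'))
      ((h3.cons (fc φ)).cons (fc (φ.sub j t))) j
    have r4 := Rch.one (s_inst (z := z) (th := th) (k := j) (tc t') (fc (φ.sub j t)) (fc φ) h4 h3
      ⟨φ, t', rfl, rfl, h1⟩ ⟨φ, t', rfl, rfl, by rw [h2]⟩)
    exact ⟨n + n' + t'.len + j + 1, by simp only [Fm.len]; omega,
      (((r.trans r').trans r'').trans r3).trans r4⟩
  | dist j φ ψ hf =>
    obtain ⟨n, hn, r⟩ := reach_F (z := z) (th := th) φ h4 h3
    obtain ⟨n', hn', r'⟩ := reach_F (z := z) (th := th) ψ h4 (h3.cons (fc φ))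
    have r3 := reach_k (z := z) (th := th) h4 ((h3.cons (fc φ)).cons (fc ψ)) j
    have r4 := Rch.one (s_dist (z := z) (th := th) (k := j) (fc ψ) (fc φ) h4 h3 (by
      rintro ⟨φ', e1, e2⟩
      rw [← fc_inj e1] at e2
      exact hf e2))
    exact ⟨n + n' + j + 1, by simp only [Fm.len]; omega, ((r.trans r').trans r3).trans r4⟩
  | refl t =>
    exact ⟨t.len + 1, by simp only [Fm.len]; omega,
      (reach_T t h4 h3).trans (Rch.one (s_refl _ h4 h3))⟩
  | congS t s =>
    exact ⟨t.len + s.len + 1, by simp only [Fm.len, Tm.len]; omega,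
      ((reach_T t h4 h3).trans (reach_T s (h4.cons _) h3)).trans (Rch.one (s_cS _ _ h4 h3))⟩
  | congAdd t s t' s' =>
    exact ⟨t.len + s.len + t'.len + s'.len + 1, by simp only [Fm.len, Tm.len]; omega,
      ((((reach_T t h4 h3).trans (reach_T s (h4.cons _) h3)).trans
      (reach_T t' ((h4.cons _).cons _) h3)).trans (reach_T s' (((h4.cons _).cons _).cons _) h3)).trans
      (Rch.one (s_cA _ _ _ _ h4 h3))⟩
  | congMul t s t' s' =>
    exact ⟨t.len + s.len + t'.len + s'.len + 1, by simp only [Fm.len, Tm.len]; omega,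
      ((((reach_T t h4 h3).trans (reach_T s (h4.cons _) h3)).trans
      (reach_T t' ((h4.cons _).cons _) h3)).trans (reach_T s' (((h4.cons _).cons _).cons _) h3)).trans
      (Rch.one (s_cM _ _ _ _ h4 h3))⟩
  | congEq t s t' s' =>
    exact ⟨t.len + s.len + t'.len + s'.len + 1, by simp only [Fm.len]; omega,
      ((((reach_T t h4 h3).trans (reach_T s (h4.cons _) h3)).trans
      (reach_T t' ((h4.cons _).cons _) h3)).trans (reach_T s' (((h4.cons _).cons _).cons _) h3)).trans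
      (Rch.one (s_cE _ _ _ _ h4 h3))⟩
  | congLe t s t' s' =>
    exact ⟨t.len + s.len + t'.len + s'.len + 1, by simp only [Fm.len]; omega,
      ((((reach_T t h4 h3).trans (reach_T s (h4.cons _) h3)).trans
      (reach_T t' ((h4.cons _).cons _) h3)).trans (reach_T s' (((h4.cons _).cons _).cons _) h3)).trans
      (Rch.one (s_cL _ _ _ _ h4 h3))⟩

lemma reach_proof {S : List Fm} (h4 : G4 ts) (h3 : G3 fs) : ∀ {L : List Fm}, IsProof S L →
    ∃ n ≤ 3 * plen L, Rch (lc S) n (stN ts fs 0 0) (stN ts fs 0 (lc L)) := by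
  intro L
  induction L with
  | nil => intro _; exact ⟨0, by simp, Rch.nil _⟩
  | cons φ L ih =>
    intro hL
    obtain ⟨n, hn, r⟩ := ih hL.1
    have hφ := φ.len_pos
    have key : (∃ n' ≤ 2 * φ.len + 1, Rch (lc S) n' (stN ts fs 0 (lc L))
        (stN ts fs 0 (nd (fc φ) (lc L)))) → ∃ n ≤ 3 * plen (φ :: L),
        Rch (lc S) n (stN ts fs 0 0) (stN ts fs 0 (lc (φ :: L))) := by
      rintro ⟨n', hn', r'⟩
      refine ⟨n + n', ?_, r.trans r'⟩
      rw [plen_cons]; omega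
    apply key
    rcases hL.2 with h | h | ⟨ψ, h1, h2⟩ | ⟨j, ψ, h1, rfl⟩
    · obtain ⟨n, hn, r⟩ := reach_F (z := lc S) (th := lc L) φ h4 h3
      exact ⟨n + 1, by omega, r.trans (Rch.one (s_tax _ h4 h3 (meR_iff.mpr h)))⟩
    · obtain ⟨n, hn, r⟩ := reach_ax (z := lc S) (th := lc L) h h4 h3
      exact ⟨n, by omega, r⟩
    · obtain ⟨n, hn, r⟩ := reach_F (z := lc S) (th := lc L) φ h4 h3
      exact ⟨n + 1, by omega, r.trans (Rch.one (s_mp _ h4 h3
        ⟨fc ψ, meR_iff (φ := .imp ψ φ) |>.mpr h2, meR_iff.mpr h1⟩))⟩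
    · obtain ⟨n, hn, r⟩ := reach_F (z := lc S) (th := lc L) ψ h4 h3
      exact ⟨n + j + 1, by simp only [Fm.len]; omega,
        (r.trans (reach_k h4 (h3.cons _) j)).trans (Rch.one (s_gen _ h4 h3 (meR_iff.mpr h1)))⟩

lemma reach_pad (n : ℕ) : ∀ {ts : ℕ}, G4 ts → G3 fs →
    ∃ ts', Rch z n (stN ts fs 0 th) (stN ts' fs 0 th) := by
  induction n with
  | zero => intro ts _ _; exact ⟨ts, Rch.nil _⟩
  | succ n ih =>
    intro ts h4 h3
    obtain ⟨ts', h⟩ := ih (h4.cons (nd 1 0)) h3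
    exact ⟨ts', Rch.cons (s_zero h4 h3) h⟩

/-- If the machine does not find a refutation, there is no short one. -/
lemma aor_complete {S : List Fm} {K : ℕ} (h4 : G4 ts) (h3 : G3 fs)
    (h : AOR (lc S) (3 * K) (stN ts fs 0 0)) : ¬ Prov S K .bot := by
  rintro ⟨L, hL, hK⟩
  obtain ⟨n, hn, r⟩ := reach_proof h4 h3 hL
  obtain ⟨ts', r'⟩ := reach_pad (z := lc S) (th := lc (.bot :: L)) (fs := fs) (3 * K - n) h4 h3
  have r2 := r.trans r'
  rw [show n + (3 * K - n) = 3 * K by omega] at r2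
  refine r2.not_bad h ⟨ts', fs, 0, lc (.bot :: L), rfl, ?_⟩
  exact meR_iff (φ := .bot) |>.mpr List.mem_cons_self

end Helper31Con

end

section

/-!
# Exponential upper bounds for proofs of finite consistency
-/

namespace Helper31Con

open Function Filter Fm

/-! ### Functions bounded by an exponential -/

/-- Bounded by `2 ^ (c * (K + 1))`. -/
def SE (f : ℕ → ℕ) : Prop := ∃ c, ∀ K, f K ≤ 2 ^ (c * (K + 1))

lemma SE.of_le {f g : ℕ → ℕ} (hg : SE g) (h : ∀ K, f K ≤ g K) : SE f := by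
  obtain ⟨c, hc⟩ := hg
  exact ⟨c, fun K => (h K).trans (hc K)⟩

lemma SE.const (a : ℕ) : SE (fun _ => a) := ⟨a, fun K => by
  have h1 : a < 2 ^ a := Nat.lt_two_pow_self
  refine h1.le.trans (Nat.pow_le_pow_right (by omega) ?_)
  nlinarith⟩

lemma SE.id : SE (fun K => K) := ⟨1, fun K => by
  have h1 : K < 2 ^ K := Nat.lt_two_pow_self
  refine h1.le.trans (Nat.pow_le_pow_right (by omega) ?_)
  omega⟩

lemma SE.mul {f g : ℕ → ℕ} (hf : SE f) (hg : SE g) : SE (fun K => f K * g K) := by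
  obtain ⟨c, hc⟩ := hf
  obtain ⟨d, hd⟩ := hg
  refine ⟨c + d, fun K => ?_⟩
  calc f K * g K ≤ 2 ^ (c * (K + 1)) * 2 ^ (d * (K + 1)) := Nat.mul_le_mul (hc K) (hd K)
    _ = 2 ^ ((c + d) * (K + 1)) := by rw [← pow_add]; congr 1; ring

lemma SE.add {f g : ℕ → ℕ} (hf : SE f) (hg : SE g) : SE (fun K => f K + g K) := by
  have h : SE (fun K => (f K + 1) * (g K + 1)) := by
    obtain ⟨c, hc⟩ := hf
    obtain ⟨d, hd⟩ := hg
    refine ⟨(c + 1) + (d + 1), fun K => ?_⟩
    have h1 : f K + 1 ≤ 2 ^ ((c + 1) * (K + 1)) := by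
      have h2 : 2 ^ ((c + 1) * (K + 1)) = 2 ^ (c * (K + 1)) * 2 ^ (K + 1) := by
        rw [← pow_add]; congr 1; ring
      have h3 : 2 ≤ 2 ^ (K + 1) := by
        calc 2 = 2 ^ 1 := rfl
          _ ≤ 2 ^ (K + 1) := Nat.pow_le_pow_right (by omega) (by omega)
      have h4 : 1 ≤ 2 ^ (c * (K + 1)) := Nat.one_le_two_pow
      have := hc K
      rw [h2]; nlinarith
    have h1' : g K + 1 ≤ 2 ^ ((d + 1) * (K + 1)) := by
      have h2 : 2 ^ ((d + 1) * (K + 1)) = 2 ^ (d * (K + 1)) * 2 ^ (K + 1) := by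
        rw [← pow_add]; congr 1; ring
      have h3 : 2 ≤ 2 ^ (K + 1) := by
        calc 2 = 2 ^ 1 := rfl
          _ ≤ 2 ^ (K + 1) := Nat.pow_le_pow_right (by omega) (by omega)
      have h4 : 1 ≤ 2 ^ (d * (K + 1)) := Nat.one_le_two_pow
      have := hd K
      rw [h2]; nlinarith
    calc (f K + 1) * (g K + 1) ≤ 2 ^ ((c + 1) * (K + 1)) * 2 ^ ((d + 1) * (K + 1)) :=
        Nat.mul_le_mul h1 h1'
      _ = 2 ^ ((c + 1 + (d + 1)) * (K + 1)) := by rw [← pow_add]; congr 1; ring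
  exact h.of_le fun K => by nlinarith

lemma SE.pow {f : ℕ → ℕ} (hf : SE f) (q : ℕ) : SE (fun K => f K ^ q) := by
  induction q with
  | zero => exact (SE.const 1).of_le fun K => by simp
  | succ q ih => exact (ih.mul hf).of_le fun K => by rw [pow_succ]

lemma SE.pb {f g : ℕ → ℕ} (hf : PB f) (hg : SE g) : SE (fun K => f (g K)) := by
  obtain ⟨C, q, hC⟩ := hf
  exact ((SE.const C).mul ((hg.add (SE.const 2)).pow q)).of_le fun K => hC _

/-- Exponentials of linear functions. -/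
lemma SE.lin (C a b : ℕ) : SE (fun K => C ^ (a * K + b)) := by
  refine ⟨C * (a + b), fun K => ?_⟩
  calc C ^ (a * K + b) ≤ (2 ^ C) ^ (a * K + b) := Nat.pow_le_pow_left Nat.lt_two_pow_self.le _
    _ = 2 ^ (C * (a * K + b)) := (pow_mul _ _ _).symm
    _ ≤ 2 ^ (C * (a + b) * (K + 1)) := by
        refine Nat.pow_le_pow_right (by omega) ?_
        have : a * K + b ≤ (a + b) * (K + 1) := by nlinarith
        calc C * (a * K + b) ≤ C * ((a + b) * (K + 1)) := Nat.mul_le_mul_left _ this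
          _ = C * (a + b) * (K + 1) := by ring

/-! ### Values of closed terms -/

/-- The value of the closed term is provable. -/
def Vp (B : List Fm) (t : Tm) (v : ℕ) : Prop := ∃ k, Pr B k k (eq t (nT v))

lemma Ev.curry {P : Cx → Prop} (h : Ev P) : ∀ᶠ B in rich, ∀ᶠ C in atTop, ∀ X : Cx,
    X.B = B → X.C = C → P X := Filter.Eventually.curry h

lemma vp_num {B : List Fm} (v : ℕ) : Vp B (nT v) v :=
  ⟨2 * (nT v).len + 1, (Pr.eqRefl le_rfl).mono (by omega) le_rfl⟩

lemma vp_nd : ∀ᶠ B in rich, ∀ (a b : Tm) (m n : ℕ), a.Cld → b.Cld → Vp B a m → Vp B b n →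
    Vp B (ndT a b) (nd m n) := by
  have r := ev_rule [eq (x 0) (x 2), eq (x 1) (x 3), eq (x 4) (ndT (x 2) (x 3))]
    (eq (ndT (x 0) (x 1)) (x 4)) (fun e h => by
      simp only [List.forall_mem_cons, Fm.Sat, Tm.val, val_ndT, List.not_mem_nil,
        IsEmpty.forall_iff, implies_true, and_true] at h ⊢
      obtain ⟨h1, h2, h3⟩ := h
      rw [h1, h2, h3])
  obtain ⟨f, hf, hfact⟩ := eq_fact (x 4) (ndT (x 2) (x 3))
  filter_upwards [(r.and ev_one).curry, hfact] with B hr hfact a b m n ha hb ⟨k, hk⟩ ⟨l, hl⟩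
  obtain ⟨C, hC, hC2⟩ := (hr.and (eventually_ge_atTop 2)).exists
  set u := nd m n + m + n with hu
  have q := hfact (as [0, 0, m, n, nd m n]) u (as_le (by
    simp only [List.forall_mem_cons, List.not_mem_nil, IsEmpty.forall_iff, implies_true, and_true]
    omega)) (by rw [val_ndT]; rfl)
  set w := k + l + f u + u + a.len + b.len + 1 with hw
  set X : Cx := ⟨B, C, w, C * (w + 1), le_rfl⟩ with hX
  obtain ⟨hX1, hX2⟩ := hC X rfl rfl
  have hwC : w ≤ C ^ w := Nat.lt_two_pow_self.le.trans (Nat.pow_le_pow_left hC2 _)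
  have hwM : w ≤ C * (w + 1) := by nlinarith
  have lN : ∀ j, j ≤ u → X.Ok (nT j) := fun j hj => X.okN (show j ≤ w by omega)
  have sb := X.sb5 (a := a) (b := b) (c := nT m) (d := nT n) (u := nT (nd m n))
    ⟨ha, by show _ ≤ w + 1; omega⟩ ⟨hb, by show _ ≤ w + 1; omega⟩ (lN _ (by omega))
    (lN _ (by omega)) (lN _ (by omega))
  have key := hX1 _ w sb (by
    rw [List.forall_mem_cons, List.forall_mem_cons, List.forall_mem_singleton]
    exact ⟨hk.mono (by show _ ≤ C ^ w; omega) (by show _ ≤ C * (w + 1); omega),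
      hl.mono (by show _ ≤ C ^ w; omega) (by show _ ≤ C * (w + 1); omega),
      q.mono (by show _ ≤ C ^ w; omega) (by show _ ≤ C * (w + 1); omega)⟩)
  exact ⟨C ^ (w + 1) + C * (w + 1), Pr.mono key (by show C ^ (w + 1) ≤ _; omega)
    (by show C * (w + 1) ≤ _; omega)⟩

lemma vp_all : ∀ᶠ B in rich, (∀ t, Vp B (tT t) (tc t)) ∧ (∀ φ, Vp B (fT φ) (fc φ)) ∧
    ∀ l, Vp B (lT l) (lc l) := by
  filter_upwards [vp_nd] with B h
  have h1 : ∀ t, Vp B (tT t) (tc t) := by
    intro t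
    induction t with
    | var k => exact h _ _ _ _ (Tm.cld_num _) (Tm.cld_num _) (vp_num _) (vp_num _)
    | zero => exact h _ _ _ _ (Tm.cld_num _) (Tm.cld_num _) (vp_num _) (vp_num _)
    | succ t ih => exact h _ _ _ _ (Tm.cld_num _) (cld_tT t) (vp_num _) ih
    | add t s iht ihs =>
      exact h _ _ _ _ (Tm.cld_num _) ((cld_tT t).ndT (cld_tT s)) (vp_num _)
        (h _ _ _ _ (cld_tT t) (cld_tT s) iht ihs)
    | mul t s iht ihs =>
      exact h _ _ _ _ (Tm.cld_num _) ((cld_tT t).ndT (cld_tT s)) (vp_num _)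
        (h _ _ _ _ (cld_tT t) (cld_tT s) iht ihs)
  have h2 : ∀ φ, Vp B (fT φ) (fc φ) := by
    intro φ
    induction φ with
    | bot => exact h _ _ _ _ (Tm.cld_num _) (Tm.cld_num _) (vp_num _) (vp_num _)
    | eq t s =>
      exact h _ _ _ _ (Tm.cld_num _) ((cld_tT t).ndT (cld_tT s)) (vp_num _)
        (h _ _ _ _ (cld_tT t) (cld_tT s) (h1 t) (h1 s))
    | le t s =>
      exact h _ _ _ _ (Tm.cld_num _) ((cld_tT t).ndT (cld_tT s)) (vp_num _)
        (h _ _ _ _ (cld_tT t) (cld_tT s) (h1 t) (h1 s))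
    | imp φ ψ ih1 ih2 =>
      exact h _ _ _ _ (Tm.cld_num _) ((cld_fT φ).ndT (cld_fT ψ)) (vp_num _)
        (h _ _ _ _ (cld_fT φ) (cld_fT ψ) ih1 ih2)
    | all k φ ih =>
      exact h _ _ _ _ (Tm.cld_num _) ((Tm.cld_num k).ndT (cld_fT φ)) (vp_num _)
        (h _ _ _ _ (Tm.cld_num k) (cld_fT φ) (vp_num _) ih)
  refine ⟨h1, h2, fun l => ?_⟩
  induction l with
  | nil => exact vp_num 0
  | cons φ l ih => exact h _ _ _ _ (cld_fT φ) (cld_lT l) (h2 φ) ih

/-! ### The initial state -/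

/-- The initial state for `m` steps. -/
def st0 (m : ℕ) : St := ⟨List.replicate (4 * m + 4) Tm.zero, List.replicate (3 * m + 3) Fm.bot, 0, []⟩

lemma tsz_rep (n : ℕ) : tsz (List.replicate n Tm.zero) = 2 * n + 1 := by
  induction n with
  | zero => rfl
  | succ n ih => rw [List.replicate_succ, tsz, ih]; simp only [Tm.len]; omega

lemma fsz_rep (n : ℕ) : fsz (List.replicate n Fm.bot) = 2 * n + 1 := by
  induction n with
  | zero => rfl
  | succ n ih => rw [List.replicate_succ, fsz, ih]; simp only [Fm.len]; omega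

/-- The pattern of the initial state. -/
def iniP : Tm := stP (ndT (x 2) (ndT (x 3) (ndT (x 4) (ndT (x 5) (x 6)))))
  (ndT (x 7) (ndT (x 8) (ndT (x 9) (x 10)))) (nT 0) (nT 0)

/-- The substitution. -/
def tau0 (S : List Fm) (K m : ℕ) : ℕ → Tm :=
  ta [nT (lc S), nT K, tT .zero, tT .zero, tT .zero, tT .zero,
    ltT (List.replicate (4 * m) Tm.zero), fT .bot, fT .bot, fT .bot,
    lT (List.replicate (3 * m) Fm.bot), lT S, nT m]

lemma iniP_sb (S : List Fm) (K m : ℕ) : iniP.sb (tau0 S K m) = stT (st0 m) := rfl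

/-- Exponential upper bounds, uniformly in the theory. -/
theorem eff_brute {con : Fm} (hcon : IsCon con) : ∀ᶠ B in rich, ∀ S : List Fm,
    (∀ φ ∈ S, Fm.Sentence φ) → (∀ n, ¬ Prov S n .bot) →
    ∃ c, ∀ K, Prov B (2 ^ (c * (K + 1))) (conN con S K) := by
  obtain ⟨I⟩ := exists_ifaceRE
  obtain ⟨J⟩ := exists_iface con (eq (x 1) (.succ (x 0))) (fun n => n + 1) 1 (fun e => Iff.rfl)
    ⟨fun a b h => Nat.add_le_add_right h 1, le_rfl, fun n _ => Nat.lt_succ_self n⟩
  have r := ev_rule [I.A3 17 (x 11) iniP (x 12), eq (x 12) (.add (x 1) (.add (x 1) (x 1))),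
      eq (x 11) (x 0), J.A 11 (x 0) .zero .zero .zero] con (fun e h => by
    rw [List.forall_mem_cons, List.forall_mem_cons, List.forall_mem_cons,
      List.forall_mem_singleton, I.satC (by simp [Al, iniP, stP]), J.satA (by simp [Al])] at h
    obtain ⟨h1, h2, h3, h4⟩ := h
    obtain ⟨T, hT, hS⟩ : LSR (e 0) := h4
    have h3' : e 11 = e 0 := h3
    have h2' : e 12 = 3 * e 1 := by
      have : e 12 = e 1 + (e 1 + e 1) := h2
      omega
    rw [hcon.sat T e hS hT]
    have h1' : AOR (lc T) (3 * e 1) (stN (nd (e 2) (nd (e 3) (nd (e 4) (nd (e 5) (e 6)))))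
        (nd (e 7) (nd (e 8) (nd (e 9) (e 10)))) 0 0) := by
      have h1'' : AOR (e 11) (e 12) (iniP.val e) := h1
      rw [h3', hT, h2'] at h1''
      simpa [iniP, stP, stN, Tm.val] using h1''
    exact aor_complete ⟨_, _, _, _, _, rfl⟩ ⟨_, _, _, _, rfl⟩ h1')
  obtain ⟨f, hf, hfact⟩ := eq_fact (x 12) (.add (x 1) (.add (x 1) (x 1)))
  obtain ⟨f', hf', hdec⟩ := dec_all J
  filter_upwards [((r.and ev_one).and (ev_ao I)).curry, vp_all, hfact, hdec] with
    B hr hvp hfact hdec S hS hcons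
  obtain ⟨C, hC, hC2⟩ := (hr.and (eventually_ge_atTop 2)).exists
  -- constants that depend on `S`
  obtain ⟨k₁, hk₁⟩ := hvp.2.2 S
  have hk₂ := (hdec (lc S) 11 (by omega) (lc S) 0 0 0 le_rfl (by omega) (by omega)
    (by omega)).1 ⟨S, rfl, hS⟩
  set k₂ := f' (lc S) with hk₂def
  obtain ⟨cf, hcf⟩ := SE.pb hf ((SE.const 3).mul SE.id)
  -- the bounds
  set W : ℕ → ℕ := fun K => 64 * (3 * K) + 65 with hW
  set d : ℕ → ℕ := fun K => fsz S + 3 * W K + 60 + 27 * (3 * K) + cf * (K + 1) + k₁ + k₂ with hd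
  set N : ℕ → ℕ := fun K => 2 ^ (8 * (W K + 4)) + (lT S).len + lc S + K + f (3 * K) + k₁ + k₂
    with hN
  have hNSE : SE (fun K => C ^ (d K + 1) * (C * (N K + 1))) := by
    have s1 : SE (fun K => C ^ (d K + 1)) := by
      refine (SE.lin C (3 * 64 * 3 + 27 * 3 + cf) (fsz S + 3 * 65 + 60 + cf + k₁ + k₂ + 1)).of_le
        fun K => le_of_eq (congrArg (C ^ ·) ?_)
      simp only [hd, hW]; ring
    have s2 : SE (fun K => 2 ^ (8 * (W K + 4))) := by
      refine (SE.lin 2 (8 * (64 * 3)) (8 * 69)).of_le fun K => le_of_eq (congrArg (2 ^ ·) ?_)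
      simp only [hW]; ring
    have s3 : SE (fun K => f (3 * K)) := ⟨cf, hcf⟩
    have s4 : SE N := (((((s2.add (SE.const _)).add (SE.const _)).add SE.id).add s3).add
      (SE.const _)).add (SE.const _)
    exact s1.mul ((SE.const C).mul (s4.add (SE.const 1)))
  obtain ⟨c, hc⟩ := hNSE
  refine ⟨c, fun K => ?_⟩
  set X : Cx := ⟨B, C, N K, C * (N K + 1), le_rfl⟩ with hX
  obtain ⟨⟨hX1, h1⟩, hX3⟩ := hC X rfl rfl
  have hNK : N K = 2 ^ (8 * (W K + 4)) + (lT S).len + lc S + K + f (3 * K) + k₁ + k₂ := rfl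
  have hdK : d K = fsz S + 3 * W K + 60 + 27 * (3 * K) + cf * (K + 1) + k₁ + k₂ := rfl
  have hWK : W K = 64 * (3 * K) + 65 := rfl
  have hWN := le_two_pow8 (W K + 4)
  have hMN : N K ≤ C * (N K + 1) := by nlinarith
  have okS : X.Ok (lT S) := ⟨cld_lT S, by show _ ≤ N K + 1; omega⟩
  have hpot : (st0 (3 * K)).pot + 8 * (3 * K) ≤ W K := by
    simp only [st0, St.pot, tsz_rep, fsz_rep, fsz, hWK]; omega
  have main := hX3 S (W K) okS hcons (by show _ ≤ N K; omega) (3 * K) (st0 (3 * K))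
    (by intro φ hφ; exact absurd hφ (by simp [st0])) (by simp [st0]) (by simp [st0]) hpot
  have hbd : (stT (st0 (3 * K))).len ≤ N K :=
    (bd_stT (st0 (3 * K))).trans ((Nat.pow_le_pow_right (by omega) (by omega)).trans
      (show 2 ^ (8 * (W K + 4)) ≤ N K by omega))
  have hst : X.Ok (stT (st0 (3 * K))) := ⟨cld_stT _, by show _ ≤ N K + 1; omega⟩
  have sb : X.Sb (tau0 S K (3 * K)) := by
    refine X.sbL ?_
    simp only [List.forall_mem_cons]
    exact ⟨X.okN (show _ ≤ N K by omega), X.okN (show _ ≤ N K by omega), hst.l.l.l,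
      hst.l.l.r.l, hst.l.l.r.r.l, hst.l.l.r.r.r.l, hst.l.l.r.r.r.r, hst.l.r.l, hst.l.r.r.l,
      hst.l.r.r.r.l, hst.l.r.r.r.r, okS, X.okN (show _ ≤ N K by omega), by simp⟩
  have hC1 : ∀ a b, a ≤ b → a ≤ C ^ b := fun a b h =>
    h.trans (Nat.lt_two_pow_self.le.trans (Nat.pow_le_pow_left hC2 _))
  have q2 : X.D (d K) ((eq (x 12) (.add (x 1) (.add (x 1) (x 1)))).sb (tau0 S K (3 * K))) := by
    have h2 := hfact (as [0, K, 0, 0, 0, 0, 0, 0, 0, 0, 0, 0, 3 * K]) (3 * K) (as_le (by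
      simp only [List.forall_mem_cons, List.not_mem_nil, IsEmpty.forall_iff, implies_true,
        and_true]
      omega)) (by show 3 * K = K + (K + K); ring)
    refine Pr.mono h2 ?_ (show f (3 * K) ≤ C * (N K + 1) by omega)
    refine (hcf K).trans ((Nat.pow_le_pow_left hC2 _).trans ?_)
    exact Nat.pow_le_pow_right (by omega) (by show _ ≤ d K; omega)
  have q3 : X.D (d K) ((eq (x 11) (x 0)).sb (tau0 S K (3 * K))) :=
    Pr.mono hk₁ (hC1 _ _ (by omega)) (show k₁ ≤ C * (N K + 1) by omega)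
  have q4 : X.D (d K) ((J.A 11 (x 0) .zero .zero .zero).sb (tau0 S K (3 * K))) := by
    have e1 : (J.A 11 (x 0) .zero .zero .zero).sb (tau0 S K (3 * K)) =
        (J.A 11 (x 0) .zero .zero .zero).cl (as [lc S]) := by
      refine Fm.sb_congr fun k hk => ?_
      rcases J.free _ _ _ _ _ _ (by simp [Al]) alw_zero alw_zero alw_zero hk with h | h | h | h
      · have : k = 0 := h.symm
        subst this; rfl
      · exact absurd h (by simp [Tm.Has])
      · exact absurd h (by simp [Tm.Has])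
      · exact absurd h (by simp [Tm.Has])
    rw [e1, J.clA (by simp [Al])]
    exact Pr.mono hk₂ (hC1 _ _ (by omega)) (show k₂ ≤ C * (N K + 1) by omega)
  have q1 : X.D (d K) ((I.A3 17 (x 11) iniP (x 12)).sb (tau0 S K (3 * K))) := by
    rw [I.sbA sb.cld (by simp [Al, iniP, stP]), iniP_sb]
    exact Cx.D.mono h1 main (by omega)
  have key := hX1 _ (d K) sb (by
    rw [List.forall_mem_cons, List.forall_mem_cons, List.forall_mem_cons,
      List.forall_mem_singleton]
    exact ⟨q1, q2, q3, q4⟩)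
  have e2 : con.sb (tau0 S K (3 * K)) = conN con S K := by
    rw [hcon.conN_eq]
    refine Fm.sb_congr fun k hk => ?_
    have := hcon.free k hk
    interval_cases k <;> rfl
  rw [e2] at key
  exact (Pr.prov key).mono (hc K)

end Helper31Con

end

section

/-!
# Formulas for the dichotomy
-/

namespace Helper31Con

open Function Filter Fm

/-! ### Rules with lists of premises -/

/-- Horn steps with a list of premises. -/
lemma hornL (αs : List Fm) (β : Fm) (h : ∀ e, (∀ α ∈ αs, α.Sat e) → β.Sat e) :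
    ∃ c : ℕ, ∀ᶠ B in rich, ∀ e N M n, (∀ k, e k ≤ N) → c * (N + 1) ≤ M →
    (∀ α ∈ αs, Pr B n M (α.cl e)) → Pr B (c * (n + 1)) M (β.cl e) := by
  refine ⟨(impL αs β).sz + αs.length, ?_⟩
  filter_upwards [rich_ucl (φ := impL αs β) fun e => (sat_impL _ _ _).mpr (h e)] with
    B hB e N M n he hM hα
  have hM' : (impL αs β).sz * (N + 1) ≤ M := (Nat.mul_le_mul_right _ (by omega)).trans hM
  have q1 : Pr B (impL αs β).sz M ((impL αs β).cl e) := (Pr.inst hB he).mono le_rfl hM'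
  have e1 : (impL αs β).cl e = impL (αs.map fun α => α.cl e) (β.cl e) := sb_impL _ _ _
  rw [e1] at q1
  have q2 := Pr.impL (n := n) _ q1 (by
    intro α hα'
    obtain ⟨α', h3, rfl⟩ := List.mem_map.mp hα'
    exact hα α' h3)
  refine q2.mono ?_ le_rfl
  rw [List.length_map]
  nlinarith

@[simp] lemma alw_add_iff {t s : Tm} : (Tm.add t s).Alw ↔ t.Alw ∧ s.Alw := by
  constructor
  · intro h
    exact ⟨fun k hk => h k (Or.inl hk), fun k hk => h k (Or.inr hk)⟩
  · rintro ⟨h, h'⟩ k (hk | hk)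
    · exact h k hk
    · exact h' k hk

@[simp] lemma alw_mul_iff {t s : Tm} : (Tm.mul t s).Alw ↔ t.Alw ∧ s.Alw := by
  constructor
  · intro h
    exact ⟨fun k hk => h k (Or.inl hk), fun k hk => h k (Or.inr hk)⟩
  · rintro ⟨h, h'⟩ k (hk | hk)
    · exact h k hk
    · exact h' k hk

/-! ### Powers -/

/-- The term `t ^ r`. -/
def pwT : ℕ → Tm → Tm
  | 0, _ => .succ .zero
  | r + 1, t => .mul (pwT r t) t

lemma val_pwT (r : ℕ) (t : Tm) (e : ℕ → ℕ) : (pwT r t).val e = t.val e ^ r := by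
  induction r with
  | zero => rfl
  | succ r ih => simp only [pwT, Tm.val, ih, pow_succ]

lemma has_pwT {r : ℕ} {t : Tm} {k : ℕ} (h : (pwT r t).Has k) : t.Has k := by
  induction r with
  | zero => exact absurd h (by simp [pwT, Tm.Has])
  | succ r ih =>
    rcases h with h | h
    · exact ih h
    · exact h

/-! ### Meaning -/

section Sem

variable (con : Fm) (k r : ℕ)

/-- The nodes of version `v`. -/
def nw (v i : ℕ) : ℕ := tw (v + k * i) v

/-- The theory `T^v` has no refutation of length at most the `i`-th node. -/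
def wC (c v i : ℕ) : Prop := ∀ z, CdT con 0 v c z → cP con z (nw k v i)

/-- The trigger. -/
def wT (v m : ℕ) : Prop := ∀ z C u, v = nd z (nd C u) → cP con z (C * m ^ r)

/-- `Φ` -/
def wP (c v : ℕ) : Prop := ∀ i m, nw k v i = 2 ^ m → wT con r v m → wC con k c v i

/-- The axiom `θ`. -/
def wTh (c : ℕ) : Prop := ∀ v, wP con k r c v → sCA con c 0 v

end Sem

/-! ### Formulas -/

section Forms

variable {con : Fm} {g : ℕ → ℕ} {s₀ : ℕ} (I : Iface (Rel con g s₀)) (k r : ℕ)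

/-- The formula for `wC`. -/
def WC (p q : ℕ) : Fm :=
  all 1 (all 0 (imp (I.A 17 (.add (x q) (.mul (.num k) (x p))) (x q) (x 1) .zero)
    (imp (I.A 25 .zero (x q) (x 2) (x 0)) con)))

/-- The formula for `wT`. -/
def WT (con : Fm) (r : ℕ) : Fm :=
  all 26 (all 28 (all 30 (imp (eq (x 18) (ndT (x 26) (ndT (x 28) (x 30))))
    (all 0 (all 1 (imp (eq (x 0) (x 26)) (imp (eq (x 1) (.mul (x 28) (pwT r (x 24)))) con)))))))

/-- The formula for `wP`. -/
def WP : Fm :=
  all 20 (all 22 (all 24 (imp (I.A 17 (.add (x 18) (.mul (.num k) (x 20))) (x 18) (x 22) .zero)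
    (imp (I.A 16 (x 24) (x 22) .zero .zero) (imp (WT con r) (WC I k 20 18))))))

/-- The formula for `wTh`. -/
def WTh : Fm := all 18 (imp (WP I k r) (CAF I 0))

/-- The consistency statements before a node. -/
def WE (a : ℕ) : Fm := all 7 (imp (lt (x 7) (x a)) (WC I k 7 6))

end Forms

section SatLemmas

variable {con : Fm} {g : ℕ → ℕ} {s₀ : ℕ} {I : Iface (Rel con g s₀)} {k r : ℕ} (hcon : IsCon con)
include hcon

lemma sat_WC {p q : ℕ} (hp : Al p) (hq : Al q) (hp2 : 2 ≤ p) (hq2 : 2 ≤ q) (e : ℕ → ℕ) :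
    (WC I k p q).Sat e ↔ wC con k (e 2) (e q) (e p) := by
  have a1 : ∀ n z e', e' = update (update e 1 n) 0 z →
      ((I.A 17 (.add (x q) (.mul (.num k) (x p))) (x q) (x 1) .zero).Sat e' ↔
      n = nw k (e q) (e p)) := by
    rintro n z e' rfl
    rw [I.satA ⟨by simp [hp, hq], Tm.alw_var hq, by simp [Al], by simp⟩]
    show (x 1).val _ = tw ((Tm.add (x q) (.mul (.num k) (x p))).val _) ((x q).val _) ↔ _
    simp only [Tm.val, Tm.val_num]
    rw [update_of_ne (show q ≠ 0 by omega), update_of_ne (show q ≠ 1 by omega),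
      update_of_ne (show p ≠ 0 by omega), update_of_ne (show p ≠ 1 by omega),
      update_of_ne (show (1 : ℕ) ≠ 0 by omega), update_self]
    rfl
  have a2 : ∀ n z e', e' = update (update e 1 n) 0 z →
      ((I.A 25 .zero (x q) (x 2) (x 0)).Sat e' ↔ CdT con 0 (e q) (e 2) z) := by
    rintro n z e' rfl
    rw [I.satA ⟨by simp, Tm.alw_var hq, by simp [Al], by simp [Al]⟩]
    show CdT con 0 ((x q).val _) ((x 2).val _) ((x 0).val _) ↔ _
    simp only [Tm.val]
    rw [update_of_ne (show q ≠ 0 by omega), update_of_ne (show q ≠ 1 by omega),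
      update_of_ne (show (2 : ℕ) ≠ 0 by omega), update_of_ne (show (2 : ℕ) ≠ 1 by omega),
      update_self]
  constructor
  · intro h z hz
    have h1 := h (nw k (e q) (e p)) z ((a1 _ _ _ rfl).mpr rfl) ((a2 _ _ _ rfl).mpr hz)
    rw [hcon.cP_iff] at h1
    simpa using h1
  · intro h n z h1 h2
    rw [a1 _ _ _ rfl] at h1
    rw [a2 _ _ _ rfl] at h2
    rw [hcon.cP_iff]
    simp only [update_self, update_of_ne (show (1 : ℕ) ≠ 0 by omega)]
    rw [h1]
    exact h z h2

lemma sat_WT (e : ℕ → ℕ) : (WT con r).Sat e ↔ wT con r (e 18) (e 24) := by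
  have key : ∀ (z C u : ℕ) (e' : ℕ → ℕ), e' = update (update (update e 26 z) 28 C) 30 u →
      ((all 0 (all 1 (imp (eq (x 0) (x 26)) (imp (eq (x 1) (.mul (x 28) (pwT r (x 24))))
        con)))).Sat e' ↔ cP con z (C * e 24 ^ r)) := by
    rintro z C u e' rfl
    have b26 : ∀ a b, update (update (update (update (update e 26 z) 28 C) 30 u) 0 a) 1 b 26 = z := by
      intro a b
      rw [update_of_ne (by omega), update_of_ne (by omega), update_of_ne (by omega),
        update_of_ne (by omega), update_self]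
    have b28 : ∀ a b, update (update (update (update (update e 26 z) 28 C) 30 u) 0 a) 1 b 28 = C := by
      intro a b
      rw [update_of_ne (by omega), update_of_ne (by omega), update_of_ne (by omega),
        update_self]
    have b24 : ∀ a b, update (update (update (update (update e 26 z) 28 C) 30 u) 0 a) 1 b 24 =
        e 24 := by
      intro a b
      rw [update_of_ne (by omega), update_of_ne (by omega), update_of_ne (by omega),
        update_of_ne (by omega), update_of_ne (by omega)]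
    have b0 : ∀ a b, update (update (update (update (update e 26 z) 28 C) 30 u) 0 a) 1 b 0 = a := by
      intro a b
      rw [update_of_ne (by omega), update_self]
    have b1 : ∀ a b, update (update (update (update (update e 26 z) 28 C) 30 u) 0 a) 1 b 1 = b := by
      intro a b
      rw [update_self]
    constructor
    · intro h
      have h1 := h z (C * e 24 ^ r) (by
        show (x 0).val _ = (x 26).val _
        simp only [Tm.val]
        rw [b0, b26]) (by
        show (x 1).val _ = (Tm.mul (x 28) (pwT r (x 24))).val _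
        simp only [Tm.val, val_pwT]
        rw [b1, b28, b24])
      rw [hcon.cP_iff, b0, b1] at h1
      exact h1
    · intro h a b h1 h2
      have h1' : (x 0).val (update (update (update (update (update e 26 z) 28 C) 30 u) 0 a) 1 b) =
        (x 26).val (update (update (update (update (update e 26 z) 28 C) 30 u) 0 a) 1 b) := h1
      have h2' : (x 1).val (update (update (update (update (update e 26 z) 28 C) 30 u) 0 a) 1 b) =
        (Tm.mul (x 28) (pwT r (x 24))).val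
          (update (update (update (update (update e 26 z) 28 C) 30 u) 0 a) 1 b) := h2
      simp only [Tm.val, val_pwT] at h1' h2'
      rw [b0, b26] at h1'
      rw [b1, b28, b24] at h2'
      rw [hcon.cP_iff, b0, b1, h1', h2']
      exact h
  refine forall_congr' fun z => forall_congr' fun C => forall_congr' fun u => ?_
  show (_ → _) ↔ (_ → _)
  rw [key z C u _ rfl]
  refine imp_congr ?_ Iff.rfl
  show (x 18).val _ = (ndT (x 26) (ndT (x 28) (x 30))).val _ ↔ _
  simp only [val_ndT, Tm.val]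
  rw [update_of_ne (show (18 : ℕ) ≠ 30 by omega), update_of_ne (show (18 : ℕ) ≠ 28 by omega),
    update_of_ne (show (18 : ℕ) ≠ 26 by omega), update_self,
    update_of_ne (show (28 : ℕ) ≠ 30 by omega), update_self,
    update_of_ne (show (26 : ℕ) ≠ 30 by omega), update_of_ne (show (26 : ℕ) ≠ 28 by omega),
    update_self]

lemma sat_WP (e : ℕ → ℕ) : (WP I k r).Sat e ↔ wP con k r (e 2) (e 18) := by
  have key : ∀ (i n m : ℕ) (e' : ℕ → ℕ), e' = update (update (update e 20 i) 22 n) 24 m →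
      ((imp (I.A 17 (.add (x 18) (.mul (.num k) (x 20))) (x 18) (x 22) .zero)
    (imp (I.A 16 (x 24) (x 22) .zero .zero) (imp (WT con r) (WC I k 20 18)))).Sat e' ↔
      (n = nw k (e 18) i → n = 2 ^ m → wT con r (e 18) m → wC con k (e 2) (e 18) i)) := by
    rintro i n m e' rfl
    have b18 : update (update (update e 20 i) 22 n) 24 m 18 = e 18 := by
      rw [update_of_ne (by omega), update_of_ne (by omega), update_of_ne (by omega)]
    have b2 : update (update (update e 20 i) 22 n) 24 m 2 = e 2 := by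
      rw [update_of_ne (by omega), update_of_ne (by omega), update_of_ne (by omega)]
    have b20 : update (update (update e 20 i) 22 n) 24 m 20 = i := by
      rw [update_of_ne (by omega), update_of_ne (by omega), update_self]
    have b22 : update (update (update e 20 i) 22 n) 24 m 22 = n := by
      rw [update_of_ne (by omega), update_self]
    have b24 : update (update (update e 20 i) 22 n) 24 m 24 = m := by
      rw [update_self]
    show (_ → _ → _ → _) ↔ _
    refine imp_congr ?_ (imp_congr ?_ (imp_congr ?_ ?_))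
    · rw [I.satA (by simp [Al])]
      show (x 22).val _ = tw ((Tm.add (x 18) (.mul (.num k) (x 20))).val _) ((x 18).val _) ↔ _
      simp only [Tm.val, Tm.val_num]
      rw [b18, b20, b22]
      rfl
    · rw [I.satA (by simp [Al])]
      show (x 22).val _ = 2 ^ ((x 24).val _) ↔ _
      simp only [Tm.val]
      rw [b22, b24]
    · rw [sat_WT hcon, b18, b24]
    · rw [sat_WC hcon (by simp [Al]) (by simp [Al]) (by omega) (by omega), b2, b18, b20]
  constructor
  · intro h i m h1 h2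
    exact (key i (nw k (e 18) i) m _ rfl).mp (h i (nw k (e 18) i) m) rfl h1 h2
  · intro h i n m
    refine (key i n m _ rfl).mpr fun h1 h2 h3 => ?_
    rw [h1] at h2
    exact h i m h2 h3

lemma sat_WTh (e : ℕ → ℕ) : (WTh I k r).Sat e ↔ wTh con k r (e 2) := by
  refine forall_congr' fun v => ?_
  show (_ → _) ↔ (_ → _)
  have b : bv 0 = 18 := rfl
  rw [sat_WP hcon, sat_CAF hcon, b, update_self, update_of_ne (by omega)]

lemma sat_WE {a : ℕ} (ha : a ≠ 7) (e : ℕ → ℕ) : (WE I k a).Sat e ↔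
    ∀ j < e a, wC con k (e 2) (e 6) j := by
  refine forall_congr' fun j => ?_
  show (_ → _) ↔ (_ → _)
  rw [sat_lt, sat_WC hcon (Or.inl (by omega)) (Or.inl (by omega)) (by omega) (by omega)]
  simp only [Tm.val, update_self]
  rw [update_of_ne ha, update_of_ne (show (2 : ℕ) ≠ 7 by omega),
    update_of_ne (show (6 : ℕ) ≠ 7 by omega)]

/-! ### Free variables -/

lemma free_WC {p q : ℕ} (hp : Al p) (hq : Al q) {j : ℕ} (h : (WC I k p q).Free j) :
    j = 2 ∨ j = p ∨ j = q := by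
  obtain ⟨h1, h0, h2 | h2 | h2⟩ := h
  · rcases I.free _ _ _ _ _ _ (by simp [hp, hq]) (Tm.alw_var hq) (by simp [Al]) (by simp) h2 with
      h | h | h | h
    · rcases h with h | h | h
      · exact Or.inr (Or.inr h.symm)
      · exact absurd h (Tm.not_has_num _ _)
      · exact Or.inr (Or.inl h.symm)
    · exact Or.inr (Or.inr h.symm)
    · exact absurd h h1
    · exact absurd h (by simp [Tm.Has])
  · rcases I.free _ _ _ _ _ _ (by simp) (Tm.alw_var hq) (by simp [Al]) (by simp [Al]) h2 with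
      h | h | h | h
    · exact absurd h (by simp [Tm.Has])
    · exact Or.inr (Or.inr h.symm)
    · exact Or.inl h.symm
    · exact absurd h h0
  · have := hcon.free j h2
    omega

lemma free_WT {j : ℕ} (h : (WT con r).Free j) : j = 18 ∨ j = 24 := by
  obtain ⟨h26, h28, h30, h | ⟨h0, h1, h | h | h⟩⟩ := h
  · rcases h with h | h
    · exact Or.inl h.symm
    · simp only [has_ndT] at h
      rcases h with h | h | h
      · exact absurd h h26
      · exact absurd h h28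
      · exact absurd h h30
  · rcases h with h | h
    · exact absurd h h0
    · exact absurd h h26
  · rcases h with h | h | h
    · exact absurd h h1
    · exact absurd h h28
    · exact Or.inr (has_pwT h).symm
  · have := hcon.free j h
    omega

lemma free_WP {j : ℕ} (h : (WP I k r).Free j) : j = 2 ∨ j = 18 := by
  obtain ⟨h20, h22, h24, h | h | h | h⟩ := h
  · rcases I.free _ _ _ _ _ _ (by simp [Al]) (by simp [Al]) (by simp [Al]) (by simp) h with
      h | h | h | h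
    · rcases h with h | h | h
      · exact Or.inr h.symm
      · exact absurd h (Tm.not_has_num _ _)
      · exact absurd h h20
    · exact Or.inr h.symm
    · exact absurd h h22
    · exact absurd h (by simp [Tm.Has])
  · rcases I.free _ _ _ _ _ _ (by simp [Al]) (by simp [Al]) (by simp) (by simp) h with
      h | h | h | h
    · exact absurd h h24
    · exact absurd h h22
    · exact absurd h (by simp [Tm.Has])
    · exact absurd h (by simp [Tm.Has])
  · rcases free_WT hcon h with h | h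
    · exact Or.inr h
    · exact absurd h.symm h24
  · rcases free_WC hcon (by simp [Al]) (by simp [Al]) h with h | h | h
    · exact Or.inl h
    · exact absurd h.symm h20
    · exact Or.inr h

lemma free_WTh {j : ℕ} (h : (WTh I k r).Free j) : j = 2 := by
  obtain ⟨h18, h | h⟩ := h
  · rcases free_WP hcon h with h | h
    · exact h
    · exact absurd h.symm h18
  · rcases free_CAF hcon h with h | h
    · exact h
    · exact absurd (show j = 18 from h).symm h18

end SatLemmas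

end Helper31Con

end
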